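import Pool.Agent.Run7.h364.MK.Var3
import Pool.Agent.Run7.h364.MK.One

/-!
# The variance of the primes in windows of progressions whose differences are members of a flat family: assembly
-/

set_option autoImplicit false

namespace Pool.Agent.Run7.h364.MK.VR

open Finset
open Pool.Agent.H373R2.T7 (ev_L' ev_log')
open Pool.Agent.N384.MQ (Sm Sm.char Sm.interval Flat dis dis_nonneg)
open Pool.Agent.Run7.h794.MK
open Pool.Agent.Run7.h364.MK

/-- a short flat distribution gives little mass to the number zero -/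
lemma p_zero (U : ℕ) : ∃ N₀ : ℕ, ∀ N : ℕ, N₀ ≤ N → ∀ (C q : ℕ) (p : ℕ → ℝ), Msh (U + 2) C 1 N q p →
    p 0 ≤ 1 / Real.log N ^ U := by
  obtain ⟨N₂, h3⟩ := ev_L' 11
  obtain ⟨N₃, h4⟩ := cbrt_large (U + 1)
  refine ⟨N₂ + N₃ + 1, fun N hN C q p hp => ?_⟩
  have hLL := h3 N (by omega)
  obtain ⟨L, hLdef⟩ : ∃ L, L = Real.log (N : ℝ) := ⟨_, rfl⟩
  rw [← hLdef] at hLL
  obtain ⟨hp1, hp2, hp3, hp4, hp5⟩ := hp
  have hq := hp5.pos
  have hq0 : (0 : ℝ) < q := by exact_mod_cast hq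
  have hN1 : 1 ≤ N := by omega
  have hN0 : (0 : ℝ) < N := by exact_mod_cast hN1
  rw [← hLdef] at hp5 ⊢
  have h5 := hp5.interval (by positivity) 0 (0 + 1) (by omega) (by omega)
  rw [Nat.Ico_succ_singleton, sum_singleton, Complex.norm_real, Real.norm_of_nonneg (hp3 0)] at h5
  have hlogq : Real.log q ≤ L := by
    rw [hLdef]
    exact Real.log_le_log hq0 (by exact_mod_cast (by omega : q ≤ N))
  have h7 : L ^ (U + 1) ≤ q := by
    have h8 := h4 N (by omega)
    rw [← hLdef] at h8 hp1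
    refine h8.trans (le_trans ?_ hp1)
    exact le_mul_of_one_le_right (by positivity) (one_le_pow₀ (by linarith))
  have h9 : (((0 + 1 : ℕ) : ℝ) - (0 : ℕ)) / q ≤ 1 / L ^ (U + 1) := by
    have e : ((0 + 1 : ℕ) : ℝ) - (0 : ℕ) = 1 := by push_cast; ring
    rw [e]
    exact one_div_le_one_div_of_le (by positivity) h7
  calc p 0 ≤ _ := h5
    _ ≤ 1 / L ^ (U + 1) + 1 / L ^ (U + 2) * (42 + 3 * L) := by
      apply add_le_add h9
      have h11 : 0 ≤ 42 + 3 * Real.log q := by
        have := Real.log_natCast_nonneg q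
        linarith
      exact mul_le_mul le_rfl (by linarith) h11 (by positivity)
    _ = (42 + 4 * L) / L ^ 2 * (1 / L ^ U) := by
      rw [pow_add, pow_add]
      field_simp
      ring
    _ ≤ 1 * (1 / L ^ U) := by
      apply mul_le_mul_of_nonneg_right _ (by positivity)
      rw [div_le_one (by positivity)]
      nlinarith
    _ = 1 / L ^ U := one_mul _

/-- the difference `d` is good: the variance formula holds for all windows of at most `log^A N` terms -/
def GoodD (A U N d : ℕ) : Prop := 1 ≤ d ∧ ∀ m : ℕ, (m : ℝ) ≤ Real.log N ^ A →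
  |∑ n ∈ Icc 1 N, (Wd d m n - mean d m n) ^ 2 - mainV N d m| ≤ N / Real.log N ^ U

open Classical in
/-- **the variance of the primes in windows of progressions with differences from a flat family** -/
theorem flat_var (hlaw : S_LAW') (A U : ℕ) : ∃ V C N₀ : ℕ, ∀ N : ℕ, N₀ ≤ N → ∀ (q : ℕ) [NeZero q] (ι : Type)
    (s : Finset ι) (y : ι → ZMod q), s.Nonempty → (N : ℝ) ^ (1 / 3 : ℝ) * Real.log N ^ C ≤ q →
    (q : ℝ) * Real.log N ^ C ≤ N → Flat q (1 / Real.log N ^ V) s y →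
    ((s.filter (fun i => ¬ GoodD A U N (y i).val)).card : ℝ) ≤ s.card / Real.log N ^ U := by
  obtain ⟨V₁, C₁, n1, h1⟩ := pair_corr hlaw A (3 * A + 2 * U + 8)
  obtain ⟨n2, h2⟩ := var_formula A U
  obtain ⟨n3, h3⟩ := p_zero (U + 1)
  obtain ⟨n4, h4⟩ := ev_L' 4
  refine ⟨V₁ + U + 3, C₁ + (3 * A + U + 8), n1 + n2 + n3 + n4 + 2, fun N hN q _ ι s y hs hq1 hq2 hf => ?_⟩
  obtain ⟨L, hL⟩ : ∃ L, L = Real.log (N : ℝ) := ⟨_, rfl⟩
  have hL4 : 4 ≤ L := by rw [hL]; exact h4 N (by omega)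
  have hL0 : 0 < L := by linarith
  have hL1 : 1 ≤ L := by linarith
  have hN0 : (0 : ℝ) < N := by exact_mod_cast (by omega : 0 < N)
  have hq0 : 0 < q := Nat.pos_of_ne_zero (NeZero.ne q)
  have hqN : q ≤ 1 * N := by
    rw [one_mul]
    have : (q : ℝ) ≤ N := by
      refine le_trans ?_ hq2
      rw [← hL]
      exact le_mul_of_one_le_right (Nat.cast_nonneg _) (one_le_pow₀ hL1)
    exact_mod_cast this
  have hp : Msh (V₁ + U + 3) (C₁ + (3 * A + U + 8)) 1 N q (dis s y) := msh_dis hs hq1 hqN hf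
  have hp1 : Msh V₁ C₁ 1 N q (dis s y) := Msh_mono (by omega) (by omega) (by rw [← hL]; exact hL1) hp
  have hp2 : Msh (U + 1 + 2) (C₁ + (3 * A + U + 8)) 1 N q (dis s y) :=
    Msh_mono (by omega) le_rfl (by rw [← hL]; exact hL1) hp
  have hz := h3 N (by omega) _ q _ hp2
  have hqC1 : (q : ℝ) * Real.log N ^ C₁ ≤ N := by
    refine le_trans ?_ hq2
    apply mul_le_mul_of_nonneg_left _ (Nat.cast_nonneg _)
    rw [← hL]
    exact pow_le_pow_right₀ hL1 (by omega)
  have hqC2 : (q : ℝ) * Real.log N ^ (3 * A + U + 8) ≤ N := by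
    refine le_trans ?_ hq2
    apply mul_le_mul_of_nonneg_left _ (Nat.cast_nonneg _)
    rw [← hL]
    exact pow_le_pow_right₀ hL1 (by omega)
  have key := h1 N (by omega) q (dis s y) hp1 hqC1
  have hvar := h2 N (by omega)
  rw [← hL] at hz key
  have hcd := count_dis' s hs y (fun v => GoodD A U N v) (1 / L ^ U) ?_
  · refine hcd.trans (le_of_eq ?_)
    rw [← hL]
    ring
  -- the mass of the bad differences
  obtain ⟨K, hK⟩ : ∃ K, K = ⌊L ^ A⌋₊ + 1 := ⟨_, rfl⟩
  have hKle : ∀ κ ∈ Ico 1 K, (κ : ℝ) ≤ L ^ A := by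
    intro κ hκ
    rw [mem_Ico, hK] at hκ
    exact (Nat.cast_le.2 (by omega : κ ≤ ⌊L ^ A⌋₊)).trans (Nat.floor_le (by positivity))
  have hKc : ((Ico 1 K).card : ℝ) ≤ L ^ A := by
    rw [Nat.card_Ico, hK, Nat.add_sub_cancel]
    exact Nat.floor_le (by positivity)
  have hbad : ∀ v ∈ Ico 1 q, (if ¬ GoodD A U N v then dis s y v else 0) ≤
      L ^ (2 * A + U + 6) / N * ∑ κ ∈ Ico 1 K, dis s y v * |LL N (κ * v) - N * SS (κ * v)| := by
    intro v hv
    rw [mem_Ico] at hv
    have hd0 := dis_nonneg s y v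
    have hsum0 : 0 ≤ ∑ κ ∈ Ico 1 K, dis s y v * |LL N (κ * v) - N * SS (κ * v)| :=
      sum_nonneg fun _ _ => mul_nonneg hd0 (abs_nonneg _)
    by_cases hg : GoodD A U N v
    · rw [if_neg (not_not.2 hg)]
      positivity
    · rw [if_pos hg]
      have hex : ∃ κ ∈ Ico 1 K, N / L ^ (2 * A + U + 6) < |LL N (κ * v) - N * SS (κ * v)| := by
        by_contra hcon
        push Not at hcon
        apply hg
        refine ⟨hv.1, fun m hm => ?_⟩
        apply hvar v m hv.1 _ hm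
        · intro κ hκ
          rw [← hL]
          apply hcon κ
          rw [mem_Ico] at hκ ⊢
          refine ⟨hκ.1, ?_⟩
          rw [hK]
          have : m ≤ ⌊L ^ A⌋₊ := Nat.le_floor (by rw [hL]; exact hm)
          omega
        · refine le_trans ?_ hqC2
          apply mul_le_mul_of_nonneg_right _ (by rw [← hL]; positivity)
          exact_mod_cast hv.2.le
      obtain ⟨κ, hκ, hκ2⟩ := hex
      have h5 : dis s y v * |LL N (κ * v) - N * SS (κ * v)| ≤ ∑ κ ∈ Ico 1 K, dis s y v * |LL N (κ * v) - N * SS (κ * v)| :=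
        single_le_sum (f := fun κ => dis s y v * |LL N (κ * v) - N * SS (κ * v)|) (fun _ _ => mul_nonneg hd0 (abs_nonneg _)) hκ
      calc dis s y v = L ^ (2 * A + U + 6) / N * (dis s y v * (N / L ^ (2 * A + U + 6))) := by field_simp
        _ ≤ L ^ (2 * A + U + 6) / N * (dis s y v * |LL N (κ * v) - N * SS (κ * v)|) := by
          apply mul_le_mul_of_nonneg_left _ (by positivity)
          exact mul_le_mul_of_nonneg_left hκ2.le hd0
        _ ≤ _ := mul_le_mul_of_nonneg_left h5 (by positivity)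
  rw [range_eq_Ico, sum_eq_sum_Ico_succ_bot hq0]
  have hzero : (if ¬ GoodD A U N 0 then dis s y 0 else 0) ≤ 1 / L ^ (U + 1) := by
    split_ifs
    · positivity
    · exact hz
  have hrest : ∑ v ∈ Ico (0 + 1) q, (if ¬ GoodD A U N v then dis s y v else 0) ≤ 1 / L ^ (U + 2) := by
    rw [zero_add]
    calc ∑ v ∈ Ico 1 q, (if ¬ GoodD A U N v then dis s y v else 0) ≤
        ∑ v ∈ Ico 1 q, L ^ (2 * A + U + 6) / N * ∑ κ ∈ Ico 1 K, dis s y v * |LL N (κ * v) - N * SS (κ * v)| :=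
          sum_le_sum hbad
      _ = L ^ (2 * A + U + 6) / N * ∑ κ ∈ Ico 1 K, ∑ v ∈ Ico 1 q, dis s y v * |LL N (κ * v) - N * SS (κ * v)| := by
        rw [← mul_sum, sum_comm]
      _ ≤ L ^ (2 * A + U + 6) / N * ∑ κ ∈ Ico 1 K, N / L ^ (3 * A + 2 * U + 8) := by
        apply mul_le_mul_of_nonneg_left _ (by positivity)
        refine sum_le_sum fun κ hκ => key κ (mem_Ico.1 hκ).1 (hKle κ hκ)
      _ ≤ L ^ (2 * A + U + 6) / N * (L ^ A * (N / L ^ (3 * A + 2 * U + 8))) := by
        apply mul_le_mul_of_nonneg_left _ (by positivity)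
        rw [sum_const, nsmul_eq_mul]
        exact mul_le_mul_of_nonneg_right hKc (by positivity)
      _ = 1 / L ^ (U + 2) := by
        rw [show 3 * A + 2 * U + 8 = (2 * A + U + 6) + A + (U + 2) by ring, pow_add L (2 * A + U + 6 + A),
          pow_add L (2 * A + U + 6)]
        field_simp
  calc (if ¬ GoodD A U N 0 then dis s y 0 else 0) + ∑ v ∈ Ico (0 + 1) q, (if ¬ GoodD A U N v then dis s y v else 0) ≤
      1 / L ^ (U + 1) + 1 / L ^ (U + 2) := add_le_add hzero hrest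
    _ = (1 / L + 1 / L ^ 2) * (1 / L ^ U) := by
      rw [pow_add, pow_add]
      field_simp
    _ ≤ 1 * (1 / L ^ U) := by
      apply mul_le_mul_of_nonneg_right _ (by positivity)
      have h6 : 1 / L ≤ 1 / 4 := one_div_le_one_div_of_le (by norm_num) hL4
      have h7 : 1 / L ^ 2 ≤ 1 / 4 ^ 2 := one_div_le_one_div_of_le (by norm_num) (pow_le_pow_left₀ (by norm_num) hL4 2)
      linarith
    _ = 1 / L ^ U := one_mul _

end Pool.Agent.Run7.h364.MK.VR
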