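import Pool.Agent.Run7.h364.MK.MobU
import Pool.Agent.Run7.h794.MK.Tra
import Pool.Agent.Run7.h364.MK.Var4

/-!
# Project MKM: bounded functions in windows of progressions whose differences are members of a flat family
-/

set_option autoImplicit false

namespace Pool.Agent.Run7.h364.MK.MV

open Finset
open Pool.Agent.H373R2.T7 (ev_L')
open Pool.Agent.N384.MQ (Sm Flat dis dis_nonneg)
open Pool.Agent.Run7.h27.MK (gI)
open Pool.Agent.Run7.h794.MK
open Pool.Agent.Run7.h364.MK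

/-- the correlation sums -/
noncomputable def CG (g : ℕ → ℝ) (N k : ℕ) : ℝ := ∑ n ∈ Icc 1 N, g n * g (n + k)

lemma tele1 (F : ℕ → ℝ) (N : ℕ) : ∑ n ∈ Icc 1 N, F (n + 1) - ∑ n ∈ Icc 1 N, F n = F (N + 1) - F 1 := by
  induction N with
  | zero => simp
  | succ N ih =>
    rw [sum_Icc_succ_top (by omega), sum_Icc_succ_top (by omega)]
    linarith

lemma shiftg (f : ℕ → ℝ) (hf : ∀ n, |f n| ≤ 1) (N h : ℕ) :
    |∑ n ∈ Icc 1 N, f (n + h) - ∑ n ∈ Icc 1 N, f n| ≤ 2 * h := by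
  induction h with
  | zero => simp
  | succ h ih =>
    have h1 := tele1 (fun n => f (n + h)) N
    have h2 : ∑ n ∈ Icc 1 N, f (n + 1 + h) = ∑ n ∈ Icc 1 N, f (n + (h + 1)) :=
      sum_congr rfl fun n _ => by congr 1; ring
    rw [h2] at h1
    have h3 : ∑ n ∈ Icc 1 N, f (n + (h + 1)) - ∑ n ∈ Icc 1 N, f n =
        (f (N + 1 + h) - f (1 + h)) + (∑ n ∈ Icc 1 N, f (n + h) - ∑ n ∈ Icc 1 N, f n) := by linarith
    rw [h3]
    have h4 := abs_le.1 (hf (N + 1 + h))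
    have h5 := abs_le.1 (hf (1 + h))
    have h6 := abs_le.1 ih
    push_cast
    rw [abs_le]
    constructor <;> linarith

lemma mul_abs_one {g : ℕ → ℝ} (hg : ∀ n, |g n| ≤ 1) (a b : ℕ) : |g a * g b| ≤ 1 := by
  rw [abs_mul]
  exact mul_le_one₀ (hg a) (abs_nonneg _) (hg b)

lemma pairE {g : ℕ → ℝ} (hg : ∀ n, |g n| ≤ 1) (N d i j : ℕ) (hij : i ≤ j) :
    |∑ n ∈ Icc 1 N, g (n + i * d) * g (n + j * d) - CG g N ((j - i) * d)| ≤ 2 * (i * d) := by
  have h1 := shiftg (fun n => g n * g (n + (j - i) * d)) (fun n => mul_abs_one hg _ _) N (i * d)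
  have h2 : ∀ n, n + i * d + (j - i) * d = n + j * d := by
    intro n
    obtain ⟨k, rfl⟩ := Nat.exists_eq_add_of_le hij
    rw [Nat.add_sub_cancel_left]
    ring
  simp only [h2] at h1
  push_cast at h1
  exact h1

/-- the quadratic form -/
lemma quad {g : ℕ → ℝ} (hg : ∀ n, |g n| ≤ 1) (N d m : ℕ) (c : ℕ → ℝ) (hc : ∀ j ∈ Icc 1 m, |c j| ≤ 1) (δ : ℝ)
    (hδ : 0 ≤ δ) (h : ∀ κ ∈ Ico 1 m, |CG g N (κ * d)| ≤ δ) :
    |∑ n ∈ Icc 1 N, (∑ j ∈ Icc 1 m, c j * g (n + j * d)) ^ 2 - CG g N 0 * ∑ j ∈ Icc 1 m, c j ^ 2| ≤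
      (m : ℝ) ^ 2 * (2 * (m * d) + δ) := by
  have e1 : ∑ n ∈ Icc 1 N, (∑ j ∈ Icc 1 m, c j * g (n + j * d)) ^ 2 =
      ∑ i ∈ Icc 1 m, ∑ j ∈ Icc 1 m, c i * c j * ∑ n ∈ Icc 1 N, g (n + i * d) * g (n + j * d) := by
    have : ∀ n ∈ Icc 1 N, (∑ j ∈ Icc 1 m, c j * g (n + j * d)) ^ 2 =
        ∑ i ∈ Icc 1 m, ∑ j ∈ Icc 1 m, c i * c j * (g (n + i * d) * g (n + j * d)) := by
      intro n _
      rw [pow_two, sum_mul_sum]
      refine sum_congr rfl fun i _ => sum_congr rfl fun j _ => by ring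
    rw [sum_congr rfl this, sum_comm]
    refine sum_congr rfl fun i _ => ?_
    rw [sum_comm]
    refine sum_congr rfl fun j _ => ?_
    rw [mul_sum]
  have e2 : CG g N 0 * ∑ j ∈ Icc 1 m, c j ^ 2 =
      ∑ i ∈ Icc 1 m, ∑ j ∈ Icc 1 m, (if i = j then c i * c j * CG g N 0 else 0) := by
    rw [mul_sum]
    refine sum_congr rfl fun i hi => ?_
    rw [sum_ite_eq, if_pos hi]
    ring
  rw [e1, e2, ← sum_sub_distrib]
  have e3 : ∀ i ∈ Icc 1 m, ∑ j ∈ Icc 1 m, c i * c j * ∑ n ∈ Icc 1 N, g (n + i * d) * g (n + j * d) -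
      ∑ j ∈ Icc 1 m, (if i = j then c i * c j * CG g N 0 else 0) =
      ∑ j ∈ Icc 1 m, (c i * c j * ∑ n ∈ Icc 1 N, g (n + i * d) * g (n + j * d) -
        if i = j then c i * c j * CG g N 0 else 0) := fun i _ => by rw [sum_sub_distrib]
  rw [sum_congr rfl e3]
  have key : ∀ i ∈ Icc 1 m, ∀ j ∈ Icc 1 m, |c i * c j * ∑ n ∈ Icc 1 N, g (n + i * d) * g (n + j * d) -
        if i = j then c i * c j * CG g N 0 else 0| ≤ 2 * (m * d) + δ := by
    intro i hi j hj
    have hcc : |c i * c j| ≤ 1 := by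
      rw [abs_mul]
      exact mul_le_one₀ (hc i hi) (abs_nonneg _) (hc j hj)
    have hi2 := (mem_Icc.1 hi)
    have hj2 := (mem_Icc.1 hj)
    have him : (i : ℝ) * d ≤ m * d := by
      apply mul_le_mul_of_nonneg_right _ (Nat.cast_nonneg _)
      exact_mod_cast hi2.2
    have hjm : (j : ℝ) * d ≤ m * d := by
      apply mul_le_mul_of_nonneg_right _ (Nat.cast_nonneg _)
      exact_mod_cast hj2.2
    by_cases hij : i = j
    · rw [if_pos hij, ← mul_sub, abs_mul]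
      subst hij
      have h1 := pairE hg N d i i le_rfl
      rw [Nat.sub_self, zero_mul] at h1
      calc |c i * c i| * |∑ n ∈ Icc 1 N, g (n + i * d) * g (n + i * d) - CG g N 0| ≤ 1 * (2 * (i * d)) :=
            mul_le_mul hcc h1 (abs_nonneg _) (by norm_num)
        _ ≤ _ := by linarith
    · rw [if_neg hij, sub_zero, abs_mul]
      rcases lt_or_gt_of_ne hij with hlt | hlt
      · have h1 := pairE hg N d i j hlt.le
        have h2 := h (j - i) (mem_Ico.2 ⟨by omega, by omega⟩)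
        have h3 : |∑ n ∈ Icc 1 N, g (n + i * d) * g (n + j * d)| ≤ 2 * (i * d) + δ := by
          have h4 := abs_le.1 h1
          have h5 := abs_le.1 h2
          rw [abs_le]
          constructor <;> linarith
        calc |c i * c j| * |∑ n ∈ Icc 1 N, g (n + i * d) * g (n + j * d)| ≤ 1 * (2 * (i * d) + δ) :=
              mul_le_mul hcc h3 (abs_nonneg _) (by norm_num)
          _ ≤ _ := by linarith
      · have h1 := pairE hg N d j i hlt.le
        have h2 := h (i - j) (mem_Ico.2 ⟨by omega, by omega⟩)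
        have hsw : ∑ n ∈ Icc 1 N, g (n + i * d) * g (n + j * d) = ∑ n ∈ Icc 1 N, g (n + j * d) * g (n + i * d) :=
          sum_congr rfl fun n _ => mul_comm _ _
        have h3 : |∑ n ∈ Icc 1 N, g (n + i * d) * g (n + j * d)| ≤ 2 * (j * d) + δ := by
          rw [hsw]
          have h4 := abs_le.1 h1
          have h5 := abs_le.1 h2
          rw [abs_le]
          constructor <;> linarith
        calc |c i * c j| * |∑ n ∈ Icc 1 N, g (n + i * d) * g (n + j * d)| ≤ 1 * (2 * (j * d) + δ) :=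
              mul_le_mul hcc h3 (abs_nonneg _) (by norm_num)
          _ ≤ _ := by linarith
  calc _ ≤ ∑ i ∈ Icc 1 m, |∑ j ∈ Icc 1 m, (c i * c j * ∑ n ∈ Icc 1 N, g (n + i * d) * g (n + j * d) -
        if i = j then c i * c j * CG g N 0 else 0)| := abs_sum_le_sum_abs _ _
    _ ≤ ∑ i ∈ Icc 1 m, ∑ j ∈ Icc 1 m, (2 * ((m : ℝ) * d) + δ) := by
      refine sum_le_sum fun i hi => (abs_sum_le_sum_abs _ _).trans (sum_le_sum fun j hj => key i hi j hj)
    _ = (m : ℝ) ^ 2 * (2 * (m * d) + δ) := by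
      rw [sum_const, sum_const, Nat.card_Icc, Nat.add_sub_cancel, nsmul_eq_mul, nsmul_eq_mul]
      ring

/-- complex coefficients -/
lemma quadC {g : ℕ → ℝ} (hg : ∀ n, |g n| ≤ 1) (N d m : ℕ) (c : ℕ → ℂ) (hc : ∀ j ∈ Icc 1 m, ‖c j‖ ≤ 1) (δ : ℝ)
    (hδ : 0 ≤ δ) (h : ∀ κ ∈ Ico 1 m, |CG g N (κ * d)| ≤ δ) :
    |∑ n ∈ Icc 1 N, ‖∑ j ∈ Icc 1 m, c j * (g (n + j * d) : ℂ)‖ ^ 2 - CG g N 0 * ∑ j ∈ Icc 1 m, ‖c j‖ ^ 2| ≤
      2 * ((m : ℝ) ^ 2 * (2 * (m * d) + δ)) := by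
  have h1 := quad hg N d m (fun j => (c j).re) (fun j hj => (Complex.abs_re_le_norm _).trans (hc j hj)) δ hδ h
  have h2 := quad hg N d m (fun j => (c j).im) (fun j hj => (Complex.abs_im_le_norm _).trans (hc j hj)) δ hδ h
  have e1 : ∀ n, ‖∑ j ∈ Icc 1 m, c j * (g (n + j * d) : ℂ)‖ ^ 2 =
      (∑ j ∈ Icc 1 m, (c j).re * g (n + j * d)) ^ 2 + (∑ j ∈ Icc 1 m, (c j).im * g (n + j * d)) ^ 2 := by
    intro n
    rw [← Complex.normSq_eq_norm_sq, Complex.normSq_apply, Complex.re_sum, Complex.im_sum]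
    have e2 : ∀ j ∈ Icc 1 m, (c j * (g (n + j * d) : ℂ)).re = (c j).re * g (n + j * d) := fun j _ => by simp
    have e3 : ∀ j ∈ Icc 1 m, (c j * (g (n + j * d) : ℂ)).im = (c j).im * g (n + j * d) := fun j _ => by simp
    rw [sum_congr rfl e2, sum_congr rfl e3]
    ring
  have e4 : ∑ j ∈ Icc 1 m, ‖c j‖ ^ 2 = ∑ j ∈ Icc 1 m, (c j).re ^ 2 + ∑ j ∈ Icc 1 m, (c j).im ^ 2 := by
    rw [← sum_add_distrib]
    refine sum_congr rfl fun j _ => ?_
    rw [← Complex.normSq_eq_norm_sq, Complex.normSq_apply]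
    ring
  rw [sum_congr rfl fun n _ => e1 n, sum_add_distrib, e4, mul_add]
  have h3 := abs_le.1 h1
  have h4 := abs_le.1 h2
  rw [abs_le]
  constructor <;> linarith

/-- **the correlations** -/
theorem corr_g {g : ℕ → ℝ} (hg : ∀ n, |g n| ≤ 1) (hlaw : S_LAWg g) (T U : ℕ) : ∃ V C N₀ : ℕ, ∀ N : ℕ, N₀ ≤ N →
    ∀ (q : ℕ) (p : ℕ → ℝ), Msh V C 1 N q p → (q : ℝ) * Real.log N ^ T ≤ N → ∀ κ : ℕ, 1 ≤ κ →
    (κ : ℝ) ≤ Real.log N ^ T → ∑ v ∈ range q, p v * |CG g N (κ * v)| ≤ N / Real.log N ^ U := by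
  obtain ⟨V, C, N₀, h⟩ := t_ONEUg hlaw T U
  refine ⟨V, C, N₀, fun N hN q p hp hq κ hκ hκT => ?_⟩
  have h1 := h N hN q p hp hq (κ : ℤ) (by omega) (by rw [Int.natAbs_natCast]; exact hκT) 0 (by simp) 1 one_pos g
    (fun n _ => hg n)
  rw [one_mul] at h1
  refine le_trans (le_of_eq ?_) h1
  refine sum_congr rfl fun v _ => ?_
  congr 2
  unfold CG
  refine sum_congr rfl fun n hn => ?_
  have h2 : (n : ℤ) + (0 + (κ : ℤ) * (v : ℕ)) = ((n + κ * v : ℕ) : ℤ) := by push_cast; ring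
  rw [h2]
  unfold gI
  rw [if_pos (by have := (mem_Icc.1 hn).1; omega), Int.toNat_natCast]

/-- the difference `d` is good for `g` -/
def GoodG (g : ℕ → ℝ) (A U N d : ℕ) : Prop := 1 ≤ d ∧ ∀ m : ℕ, (m : ℝ) ≤ Real.log N ^ A → ∀ c : ℕ → ℂ,
  (∀ j ∈ Icc 1 m, ‖c j‖ ≤ 1) →
  |∑ n ∈ Icc 1 N, ‖∑ j ∈ Icc 1 m, c j * (g (n + j * d) : ℂ)‖ ^ 2 - CG g N 0 * ∑ j ∈ Icc 1 m, ‖c j‖ ^ 2| ≤
    N / Real.log N ^ U

open Classical in
/-- **bounded functions in windows of progressions with differences from a flat family** -/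
theorem flat_g {g : ℕ → ℝ} (hg : ∀ n, |g n| ≤ 1) (hlaw : S_LAWg g) (A U : ℕ) : ∃ V C N₀ : ℕ, ∀ N : ℕ, N₀ ≤ N →
    ∀ (q : ℕ) [NeZero q] (ι : Type) (s : Finset ι) (y : ι → ZMod q), s.Nonempty →
    (N : ℝ) ^ (1 / 3 : ℝ) * Real.log N ^ C ≤ q → (q : ℝ) * Real.log N ^ C ≤ N → Flat q (1 / Real.log N ^ V) s y →
    ((s.filter (fun i => ¬ GoodG g A U N (y i).val)).card : ℝ) ≤ s.card / Real.log N ^ U := by
  obtain ⟨V₁, C₁, n1, h1⟩ := corr_g hg hlaw A (3 * A + 2 * U + 8)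
  obtain ⟨n3, h3⟩ := VR.p_zero (U + 1)
  obtain ⟨n4, h4⟩ := ev_L' 6
  refine ⟨V₁ + U + 3, C₁ + (3 * A + U + 8), n1 + n3 + n4 + 2, fun N hN q _ ι s y hs hq1 hq2 hf => ?_⟩
  obtain ⟨L, hL⟩ : ∃ L, L = Real.log (N : ℝ) := ⟨_, rfl⟩
  have hL4 : 6 ≤ L := by rw [hL]; exact h4 N (by omega)
  have hL0 : 0 < L := by linarith
  have hL1 : 1 ≤ L := by linarith
  have hN0 : (0 : ℝ) < N := by exact_mod_cast (by omega : 0 < N)
  have hq0 : 0 < q := Nat.pos_of_ne_zero (NeZero.ne q)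
  have hqN : q ≤ 1 * N := by
    rw [one_mul]
    have : (q : ℝ) ≤ N := by
      refine le_trans ?_ hq2
      rw [← hL]
      exact le_mul_of_one_le_right (Nat.cast_nonneg _) (one_le_pow₀ hL1)
    exact_mod_cast this
  have hp : Msh (V₁ + U + 3) (C₁ + (3 * A + U + 8)) 1 N q (dis s y) := msh_dis hs hq1 hqN hf
  have hp1 : Msh V₁ C₁ 1 N q (dis s y) := Msh_mono (by omega) (by omega) (by rw [← hL]; exact hL1) hp
  have hp2 : Msh (U + 1 + 2) (C₁ + (3 * A + U + 8)) 1 N q (dis s y) :=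
    Msh_mono (by omega) le_rfl (by rw [← hL]; exact hL1) hp
  have hz := h3 N (by omega) _ q _ hp2
  have hqC1 : (q : ℝ) * Real.log N ^ A ≤ N := by
    refine le_trans ?_ hq2
    apply mul_le_mul_of_nonneg_left _ (Nat.cast_nonneg _)
    rw [← hL]
    exact pow_le_pow_right₀ hL1 (by omega)
  have hqC2 : (q : ℝ) * Real.log N ^ (3 * A + U + 8) ≤ N := by
    refine le_trans ?_ hq2
    apply mul_le_mul_of_nonneg_left _ (Nat.cast_nonneg _)
    rw [← hL]
    exact pow_le_pow_right₀ hL1 (by omega)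
  have key := h1 N (by omega) q (dis s y) hp1 hqC1
  rw [← hL] at hz key hqC2
  have hcd := count_dis' s hs y (fun v => GoodG g A U N v) (1 / L ^ U) ?_
  · refine hcd.trans (le_of_eq ?_)
    rw [← hL]
    ring
  -- the mass of the bad differences
  obtain ⟨K, hK⟩ : ∃ K, K = ⌊L ^ A⌋₊ + 1 := ⟨_, rfl⟩
  have hKle : ∀ κ ∈ Ico 1 K, (κ : ℝ) ≤ L ^ A := by
    intro κ hκ
    rw [mem_Ico, hK] at hκ
    exact (Nat.cast_le.2 (by omega : κ ≤ ⌊L ^ A⌋₊)).trans (Nat.floor_le (by positivity))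
  have hKc : ((Ico 1 K).card : ℝ) ≤ L ^ A := by
    rw [Nat.card_Ico, hK, Nat.add_sub_cancel]
    exact Nat.floor_le (by positivity)
  have hbad : ∀ v ∈ Ico 1 q, (if ¬ GoodG g A U N v then dis s y v else 0) ≤
      L ^ (2 * A + U + 6) / N * ∑ κ ∈ Ico 1 K, dis s y v * |CG g N (κ * v)| := by
    intro v hv
    rw [mem_Ico] at hv
    have hd0 := dis_nonneg s y v
    have hsum0 : 0 ≤ ∑ κ ∈ Ico 1 K, dis s y v * |CG g N (κ * v)| :=
      sum_nonneg fun _ _ => mul_nonneg hd0 (abs_nonneg _)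
    by_cases hgg : GoodG g A U N v
    · rw [if_neg (not_not.2 hgg)]
      positivity
    · rw [if_pos hgg]
      have hex : ∃ κ ∈ Ico 1 K, N / L ^ (2 * A + U + 6) < |CG g N (κ * v)| := by
        by_contra hcon
        push Not at hcon
        apply hgg
        refine ⟨hv.1, fun m hm c hc => ?_⟩
        rw [← hL] at hm ⊢
        have h5 := quadC hg N v m c hc (N / L ^ (2 * A + U + 6)) (by positivity) (by
          intro κ hκ
          apply hcon κ
          rw [mem_Ico] at hκ ⊢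
          refine ⟨hκ.1, ?_⟩
          rw [hK]
          have : m ≤ ⌊L ^ A⌋₊ := Nat.le_floor hm
          omega)
        refine h5.trans ?_
        have hvN : (v : ℝ) ≤ N / L ^ (3 * A + U + 8) := by
          rw [le_div_iff₀ (by positivity)]
          refine le_trans ?_ hqC2
          apply mul_le_mul_of_nonneg_right _ (by positivity)
          exact_mod_cast hv.2.le
        have hm0 : (0 : ℝ) ≤ m := Nat.cast_nonneg _
        calc 2 * ((m : ℝ) ^ 2 * (2 * (m * v) + N / L ^ (2 * A + U + 6))) ≤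
            2 * ((L ^ A) ^ 2 * (2 * (L ^ A * (N / L ^ (3 * A + U + 8))) + N / L ^ (2 * A + U + 6))) := by gcongr
          _ = (4 / L ^ 8 + 2 / L ^ 6) * (N / L ^ U) := by
            rw [show 3 * A + U + 8 = A + A + A + U + 8 by ring, show 2 * A + U + 6 = A + A + U + 6 by ring,
              pow_add, pow_add, pow_add, pow_add, pow_add, pow_add, pow_add]
            field_simp
            ring
          _ ≤ 1 * (N / L ^ U) := by
            apply mul_le_mul_of_nonneg_right _ (by positivity)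
            have h6 : 4 / L ^ 8 ≤ 4 / L := by
              apply div_le_div_of_nonneg_left (by norm_num) hL0
              exact le_self_pow₀ hL1 (by norm_num)
            have h7 : 2 / L ^ 6 ≤ 2 / L := by
              apply div_le_div_of_nonneg_left (by norm_num) hL0
              exact le_self_pow₀ hL1 (by norm_num)
            have h8 : 4 / L + 2 / L ≤ 1 := by
              rw [← add_div, div_le_one hL0]
              linarith
            linarith
          _ = _ := one_mul _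
      obtain ⟨κ, hκ, hκ2⟩ := hex
      have h5 : dis s y v * |CG g N (κ * v)| ≤ ∑ κ ∈ Ico 1 K, dis s y v * |CG g N (κ * v)| :=
        single_le_sum (f := fun κ => dis s y v * |CG g N (κ * v)|) (fun _ _ => mul_nonneg hd0 (abs_nonneg _)) hκ
      calc dis s y v = L ^ (2 * A + U + 6) / N * (dis s y v * (N / L ^ (2 * A + U + 6))) := by field_simp
        _ ≤ L ^ (2 * A + U + 6) / N * (dis s y v * |CG g N (κ * v)|) := by
          apply mul_le_mul_of_nonneg_left _ (by positivity)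
          exact mul_le_mul_of_nonneg_left hκ2.le hd0
        _ ≤ _ := mul_le_mul_of_nonneg_left h5 (by positivity)
  rw [range_eq_Ico, sum_eq_sum_Ico_succ_bot hq0]
  have hzero : (if ¬ GoodG g A U N 0 then dis s y 0 else 0) ≤ 1 / L ^ (U + 1) := by
    split_ifs
    · positivity
    · exact hz
  have hrest : ∑ v ∈ Ico (0 + 1) q, (if ¬ GoodG g A U N v then dis s y v else 0) ≤ 1 / L ^ (U + 2) := by
    rw [zero_add]
    calc ∑ v ∈ Ico 1 q, (if ¬ GoodG g A U N v then dis s y v else 0) ≤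
        ∑ v ∈ Ico 1 q, L ^ (2 * A + U + 6) / N * ∑ κ ∈ Ico 1 K, dis s y v * |CG g N (κ * v)| :=
          sum_le_sum hbad
      _ = L ^ (2 * A + U + 6) / N * ∑ κ ∈ Ico 1 K, ∑ v ∈ Ico 1 q, dis s y v * |CG g N (κ * v)| := by
        rw [← mul_sum, sum_comm]
      _ ≤ L ^ (2 * A + U + 6) / N * ∑ κ ∈ Ico 1 K, N / L ^ (3 * A + 2 * U + 8) := by
        apply mul_le_mul_of_nonneg_left _ (by positivity)
        refine sum_le_sum fun κ hκ => ?_
        refine le_trans ?_ (key κ (mem_Ico.1 hκ).1 (hKle κ hκ))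
        rw [range_eq_Ico]
        apply sum_le_sum_of_subset_of_nonneg
        · intro x hx
          rw [mem_Ico] at hx ⊢
          omega
        · intro x _ _
          exact mul_nonneg (dis_nonneg s y x) (abs_nonneg _)
      _ ≤ L ^ (2 * A + U + 6) / N * (L ^ A * (N / L ^ (3 * A + 2 * U + 8))) := by
        apply mul_le_mul_of_nonneg_left _ (by positivity)
        rw [sum_const, nsmul_eq_mul]
        exact mul_le_mul_of_nonneg_right hKc (by positivity)
      _ = 1 / L ^ (U + 2) := by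
        rw [show 3 * A + 2 * U + 8 = (2 * A + U + 6) + A + (U + 2) by ring, pow_add L (2 * A + U + 6 + A),
          pow_add L (2 * A + U + 6)]
        field_simp
  calc (if ¬ GoodG g A U N 0 then dis s y 0 else 0) + ∑ v ∈ Ico (0 + 1) q, (if ¬ GoodG g A U N v then dis s y v else 0) ≤
      1 / L ^ (U + 1) + 1 / L ^ (U + 2) := add_le_add hzero hrest
    _ = (1 / L + 1 / L ^ 2) * (1 / L ^ U) := by
      rw [pow_add, pow_add]
      field_simp
    _ ≤ 1 * (1 / L ^ U) := by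
      apply mul_le_mul_of_nonneg_right _ (by positivity)
      have h6 : 1 / L ≤ 1 / 6 := one_div_le_one_div_of_le (by norm_num) hL4
      have h7 : 1 / L ^ 2 ≤ 1 / 6 ^ 2 := one_div_le_one_div_of_le (by norm_num) (pow_le_pow_left₀ (by norm_num) hL4 2)
      linarith
    _ = 1 / L ^ U := one_mul _

end Pool.Agent.Run7.h364.MK.MV
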