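import Pool.Agent.Run7.h364.MK.One

/-!
# Project MK: the one-shift law for short flat distributions, uniformly in the dilation
-/

set_option autoImplicit false

namespace Pool.Agent.Run7.h364.MK

open Finset
open Pool.Agent.H807R2.Dav (ee norm_ee ee_add)
open Pool.Agent.H373R2.T7 (lamz lamI lamzI ev_L')
open Pool.Agent.N384.MQ (Sm Sm.char Sm.interval)
open Pool.Agent.Run7.h794.MK

/-- **ONEU**: ONE uniformly in `κ ≤ L^T` -/
def S_ONEU : Prop := ∀ (T U : ℕ), ∃ V C B₀ : ℕ, ∀ E : ℕ, ∃ N₀ : ℕ, ∀ N : ℕ, N₀ ≤ N → ∀ z : ℕ,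
  Real.log N ^ B₀ ≤ z → (z : ℝ) ≤ Real.log N ^ E → ∀ (q : ℕ) (p : ℕ → ℝ), Msh V C 1 N q p →
  (q : ℝ) * Real.log N ^ T ≤ N → ∀ κ : ℤ, κ ≠ 0 → (κ.natAbs : ℝ) ≤ Real.log N ^ T → ∀ cc : ℤ, |cc| ≤ N →
  ∀ Kc : ℝ, 0 < Kc → ∀ G : ℕ → ℝ, (∀ n ∈ Icc 1 N, |G n| ≤ Kc) →
  ∑ v ∈ range q, p v * |∑ n ∈ Icc 1 N, G n * (lamI ((n : ℤ) + (cc + κ * (v : ℕ))) - lamzI z ((n : ℤ) + (cc + κ * (v : ℕ))))| ≤
    Kc * (N / Real.log N ^ U)

/-- **ONEU** -/
theorem t_ONEU (hlaw : S_LAW') : S_ONEU := by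
  intro T U
  obtain ⟨B, hB⟩ : ∃ B, B = 2 := ⟨_, rfl⟩
  obtain ⟨Bq, hBqd⟩ : ∃ Bq, Bq = 1 := ⟨_, rfl⟩
  obtain ⟨V₁, h1⟩ := hlaw B U
  obtain ⟨C, B₀, h2⟩ := h1 T (V₁ + 2)
  refine ⟨V₁ + 2, C, B₀, fun E => ?_⟩
  obtain ⟨N₁, h3⟩ := h2 E
  obtain ⟨N₂, h4⟩ := ev_L' (11 + Real.log ((Bq + 1 : ℕ) : ℝ))
  refine ⟨N₁ + N₂ + 2 * (B + 2) + 2, fun N hN z hz1 hz2 q p hp hqT κ hκ hκT cc hcc Kc hKc G hG => ?_⟩
  obtain ⟨hp1, hp2, hp3, hp4, hp5⟩ := hp
  have hL := h4 N (by omega)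
  obtain ⟨L, hLdef⟩ : ∃ L, L = Real.log (N : ℝ) := ⟨_, rfl⟩
  rw [← hLdef] at hL
  have hBq : 0 ≤ Real.log ((Bq + 1 : ℕ) : ℝ) := Real.log_natCast_nonneg _
  have hκ0 : (0 : ℝ) ≤ κ.natAbs := Nat.cast_nonneg _
  have hL11 : 11 ≤ L := by linarith
  have hL0 : 0 < L := by linarith
  have hp2 : q ≤ Bq * N := by rw [hBqd]; exact hp2
  have hq := hp5.pos
  have hq0 : (0 : ℝ) < q := by exact_mod_cast hq
  have hN1 : 1 ≤ N := by omega
  have hN0 : (0 : ℝ) < N := by exact_mod_cast hN1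
  have hBq1 : 1 ≤ Bq := by
    by_contra hcon
    have : Bq = 0 := by omega
    rw [this] at hp2
    omega
  have hK1 : 1 ≤ κ.natAbs := Int.natAbs_pos.2 hκ
  have hBqB : Bq ≤ B := by omega
  obtain ⟨M, hM⟩ : ∃ M, M = 2 * (B + 2) * N := ⟨_, rfl⟩
  have hM2 : M ≤ N ^ 2 := by
    rw [hM, pow_two]
    exact Nat.mul_le_mul_right _ (by omega)
  have hM1 : 1 ≤ M := by
    rw [hM]
    exact Nat.mul_pos (by omega) (by omega)
  have hM0 : (0 : ℝ) < M := by exact_mod_cast hM1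
  have hMq : 2 * (q : ℝ) ≤ M := by
    have h5 : 2 * q ≤ M := by
      calc 2 * q ≤ 2 * (Bq * N) := by omega
        _ ≤ 2 * ((B + 2) * N) := by
          apply Nat.mul_le_mul_left
          exact Nat.mul_le_mul_right _ (by omega)
        _ = M := by rw [hM]; ring
    exact_mod_cast h5
  have hMq' : 2 ≤ (M : ℝ) / q := by
    rw [le_div_iff₀ hq0]
    exact hMq
  have key := h3 N (by omega) z hz1 hz2 M (by rw [hM]) hM2 ℕ (range q) p (fun v => cc + κ * (v : ℕ))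
    (fun v _ => hp3 v) hp4.le (fun v hv => by
      rw [mem_range] at hv
      have h5 : |cc + κ * (v : ℕ)| ≤ |cc| + |κ * (v : ℕ)| := abs_add_le _ _
      have h6 : |κ * (v : ℕ)| = κ.natAbs * (v : ℕ) := by
        rw [abs_mul, Int.abs_eq_natAbs κ, abs_of_nonneg (by positivity : (0 : ℤ) ≤ (v : ℕ))]
      have h7 : ((κ.natAbs * v : ℕ) : ℤ) ≤ N := by
        have h8 : (κ.natAbs : ℝ) * v ≤ N := by
          calc (κ.natAbs : ℝ) * v ≤ Real.log N ^ T * q := by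
                apply mul_le_mul hκT (by exact_mod_cast hv.le) (Nat.cast_nonneg _)
                exact pow_nonneg (Real.log_natCast_nonneg _) _
            _ = q * Real.log N ^ T := mul_comm _ _
            _ ≤ N := hqT
        exact_mod_cast h8
      rw [h6] at h5
      rw [Nat.cast_mul] at h7
      rw [hB]
      have h10 : ((2 : ℕ) : ℤ) * (N : ℤ) = 2 * N := by norm_num
      rw [h10]
      linarith) q hp1 (Gam κ M) (by
      have h5 : ((Gam κ M).card : ℝ) ≤ κ.natAbs := by exact_mod_cast Gam_card κ M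
      linarith) (fun t ht => ?_) Kc hKc G hG
  · exact key
  · -- the characteristic function is small
    rw [← hLdef] at ht ⊢
    rw [← hLdef] at hp5
    have hLD : 1 ≤ L ^ (V₁ + 2) := one_le_pow₀ (by linarith)
    have hR : 2 ≤ L ^ (V₁ + 2) * ((M : ℝ) / q) := by nlinarith
    have hfar := far κ hκ M hM1 t (L ^ (V₁ + 2) * ((M : ℝ) / q)) hR ht
    have hδ : L ^ (V₁ + 2) * ((M : ℝ) / q) / (4 * M) = L ^ (V₁ + 2) / (4 * q) := by field_simp
    rw [hδ] at hfar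
    refine (charf hp5 (by positivity) κ cc ((t : ℝ) / M) (L ^ (V₁ + 2) / (4 * q)) (by positivity) hfar).trans ?_
    have e1 : 1 / (L ^ (V₁ + 2) / (4 * q) * q) = 4 / L ^ (V₁ + 2) := by field_simp
    rw [e1]
    have hlogq : Real.log q ≤ 2 * L := by
      have h5 : (q : ℝ) ≤ ((Bq + 1 : ℕ) : ℝ) * N := by
        have : q ≤ (Bq + 1) * N := by nlinarith
        exact_mod_cast this
      calc Real.log q ≤ Real.log (((Bq + 1 : ℕ) : ℝ) * N) := Real.log_le_log hq0 h5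
        _ = Real.log ((Bq + 1 : ℕ) : ℝ) + L := by
          rw [Real.log_mul (by positivity) hN0.ne', hLdef]
        _ ≤ 2 * L := by linarith
    calc 4 / L ^ (V₁ + 2) + 1 / L ^ (V₁ + 2) * (42 + 3 * Real.log q) ≤
        4 / L ^ (V₁ + 2) + 1 / L ^ (V₁ + 2) * (42 + 3 * (2 * L)) := by gcongr
      _ = (46 + 6 * L) / L ^ 2 * (1 / L ^ V₁) := by
          rw [pow_add]
          field_simp
          ring
      _ ≤ 1 * (1 / L ^ V₁) := by
          apply mul_le_mul_of_nonneg_right _ (by positivity)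
          rw [div_le_one (by positivity)]
          nlinarith
      _ = 1 / L ^ V₁ := one_mul _

end Pool.Agent.Run7.h364.MK
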