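import Mathlib
import Pool.Agent.H373R2.T7.LamZ
import Pool.Agent.H373R2.T7.SysCount

/-!
# The singular series of a pair and its truncations
-/

set_option autoImplicit false

namespace Pool.Agent.Run7.h364.MK.VR

open Finset
open Pool.Agent.H373R2.T7 (pz mem_pz Vz Vz_ge lamz nuB PerB)

/-- partial products of the twin prime constant -/
noncomputable def PC (z : ℕ) : ℝ := ∏ p ∈ (Icc 3 z).filter Nat.Prime, (1 - 1 / ((p : ℝ) - 1) ^ 2)

/-- the twin prime constant -/
noncomputable def C2 : ℝ := ⨅ z : ℕ, PC z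

/-- the singular series of the pair `0, h` -/
noncomputable def SS (h : ℕ) : ℝ :=
  if Even h then 2 * C2 * ∏ p ∈ h.primeFactors.filter (fun p => 2 < p), (((p : ℝ) - 1) / (p - 2)) else 0

/-- the number of forbidden classes -/
def nu (h p : ℕ) : ℕ := if p ∣ h then 1 else 2

/-- the truncated singular series -/
noncomputable def WW (z h : ℕ) : ℝ := (Vz z)⁻¹ ^ 2 * ∏ p ∈ pz z, (1 - (nu h p : ℝ) / p)

lemma fac_mem {m : ℕ} (hm : 3 ≤ m) : 0 ≤ 1 - 1 / ((m : ℝ) - 1) ^ 2 ∧ 1 - 1 / ((m : ℝ) - 1) ^ 2 ≤ 1 := by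
  have h3 : (3 : ℝ) ≤ m := by exact_mod_cast hm
  have h6 : (1 : ℝ) ≤ ((m : ℝ) - 1) ^ 2 := by nlinarith
  constructor
  · rw [sub_nonneg, div_le_one (by linarith)]
    exact h6
  · have : 0 ≤ 1 / ((m : ℝ) - 1) ^ 2 := by positivity
    linarith

lemma PC_nonneg (z : ℕ) : 0 ≤ PC z :=
  prod_nonneg fun p hp => (fac_mem (mem_Icc.1 (mem_filter.1 hp).1).1).1

lemma C2_nonneg : 0 ≤ C2 := le_ciInf PC_nonneg

lemma C2_le (z : ℕ) : C2 ≤ PC z := by
  refine ciInf_le ⟨0, ?_⟩ z
  rintro _ ⟨y, rfl⟩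
  exact PC_nonneg y

lemma one_sub_sum {ι : Type} (s : Finset ι) (x : ι → ℝ) (h : ∀ i ∈ s, 0 ≤ x i ∧ x i ≤ 1) :
    1 - ∑ i ∈ s, x i ≤ ∏ i ∈ s, (1 - x i) := by
  classical
  induction s using Finset.induction_on with
  | empty => simp
  | insert a s ha ih =>
    rw [sum_insert ha, prod_insert ha]
    have h1 := h a (mem_insert_self _ _)
    have h2 := ih fun i hi => h i (mem_insert_of_mem hi)
    have h3 : 0 ≤ ∑ i ∈ s, x i := sum_nonneg fun i hi => (h i (mem_insert_of_mem hi)).1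
    nlinarith [mul_nonneg h1.1 h3, mul_le_mul_of_nonneg_left h2 (show 0 ≤ 1 - x a by linarith)]

lemma tele (k : ℕ) (hk : 2 ≤ k) (w : ℕ) (hw : k ≤ w) :
    ∑ m ∈ Ioc k w, (1 / ((m : ℝ) - 1) ^ 2) ≤ 1 / ((k : ℝ) - 1) - 1 / ((w : ℝ) - 1) := by
  induction w, hw using Nat.le_induction with
  | base => simp
  | succ w hw ih =>
    have hw2 : (2 : ℝ) ≤ w := by exact_mod_cast hk.trans hw
    have e : Ioc k (w + 1) = insert (w + 1) (Ioc k w) := by
      ext m
      simp only [mem_Ioc, mem_insert]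
      omega
    rw [e, sum_insert (by simp)]
    have h1 : 1 / (((w + 1 : ℕ) : ℝ) - 1) ^ 2 ≤ 1 / ((w : ℝ) - 1) - 1 / (((w + 1 : ℕ) : ℝ) - 1) := by
      push_cast
      have e2 : 1 / ((w : ℝ) - 1) - 1 / ((w : ℝ) + 1 - 1) = 1 / (((w : ℝ) - 1) * w) := by
        have : (w : ℝ) - 1 ≠ 0 := by linarith
        have : (w : ℝ) ≠ 0 := by linarith
        have : (w : ℝ) + 1 - 1 ≠ 0 := by linarith
        field_simp
        ring
      rw [e2]
      apply one_div_le_one_div_of_le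
      · apply mul_pos <;> linarith
      · nlinarith
    linarith

/-- the partial products are close to the constant -/
lemma C2_ge (z : ℕ) (hz : 2 ≤ z) : PC z * (1 - 1 / ((z : ℝ) - 1)) ≤ C2 := by
  have hz2 : (2 : ℝ) ≤ z := by exact_mod_cast hz
  have hfac : 0 ≤ 1 - 1 / ((z : ℝ) - 1) := by
    rw [sub_nonneg, div_le_one (by linarith)]
    linarith
  apply le_ciInf
  intro w
  rcases le_total w z with hw | hw
  · have h1 : PC z ≤ PC w := by
      unfold PC
      rw [← prod_sdiff (filter_subset_filter _ (Icc_subset_Icc_right hw) : (Icc 3 w).filter Nat.Prime ⊆ (Icc 3 z).filter Nat.Prime)]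
      have h2 : ∏ p ∈ (Icc 3 z).filter Nat.Prime \ (Icc 3 w).filter Nat.Prime, (1 - 1 / ((p : ℝ) - 1) ^ 2) ≤ 1 := by
        apply prod_le_one
        · intro p hp
          exact (fac_mem (mem_Icc.1 (mem_filter.1 (mem_sdiff.1 hp).1).1).1).1
        · intro p hp
          exact (fac_mem (mem_Icc.1 (mem_filter.1 (mem_sdiff.1 hp).1).1).1).2
      exact mul_le_of_le_one_left (PC_nonneg w) h2
    have h3 : 1 - 1 / ((z : ℝ) - 1) ≤ 1 := by
      have : 0 ≤ 1 / ((z : ℝ) - 1) := by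
        apply div_nonneg zero_le_one
        linarith
      linarith
    calc PC z * (1 - 1 / ((z : ℝ) - 1)) ≤ PC z * 1 := mul_le_mul_of_nonneg_left h3 (PC_nonneg z)
      _ ≤ PC w := by rw [mul_one]; exact h1
  · have e : PC w = (∏ p ∈ (Icc 3 w).filter Nat.Prime \ (Icc 3 z).filter Nat.Prime, (1 - 1 / ((p : ℝ) - 1) ^ 2)) * PC z := by
      unfold PC
      rw [prod_sdiff (filter_subset_filter _ (Icc_subset_Icc_right hw))]
    rw [e, mul_comm]
    apply mul_le_mul_of_nonneg_right _ (PC_nonneg z)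
    have hsub : (Icc 3 w).filter Nat.Prime \ (Icc 3 z).filter Nat.Prime ⊆ Ioc z w := by
      intro p hp
      rw [mem_sdiff, mem_filter, mem_filter, mem_Icc, mem_Icc] at hp
      rw [mem_Ioc]
      refine ⟨?_, hp.1.1.2⟩
      by_contra hcon
      exact hp.2 ⟨⟨hp.1.1.1, by omega⟩, hp.1.2⟩
    refine le_trans ?_ (one_sub_sum _ _ fun p hp => ?_)
    · have h1 : ∑ p ∈ (Icc 3 w).filter Nat.Prime \ (Icc 3 z).filter Nat.Prime, (1 / ((p : ℝ) - 1) ^ 2) ≤
          ∑ p ∈ Ioc z w, (1 / ((p : ℝ) - 1) ^ 2) :=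
        sum_le_sum_of_subset_of_nonneg hsub fun _ _ _ => by positivity
      have h2 := tele z hz w hw
      have h3 : 0 ≤ 1 / ((w : ℝ) - 1) := by
        have : (2 : ℝ) ≤ w := by exact_mod_cast hz.trans hw
        apply div_nonneg zero_le_one
        linarith
      linarith
    · have h3 := fac_mem (mem_Icc.1 (mem_filter.1 (mem_sdiff.1 hp).1).1).1
      constructor
      · positivity
      · linarith [h3.1]

lemma Vz_prod_pos (z : ℕ) : 0 < Vz z := by
  unfold Vz
  apply prod_pos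
  intro p hp
  have h2 : (2 : ℝ) ≤ p := by exact_mod_cast (mem_pz.1 hp).2.two_le
  rw [sub_pos, div_lt_one (by linarith)]
  linarith

lemma pz_split (z : ℕ) (hz : 2 ≤ z) : pz z = insert 2 ((Icc 3 z).filter Nat.Prime) := by
  ext p
  rw [mem_pz, mem_insert, mem_filter, mem_Icc]
  constructor
  · rintro ⟨h1, h2⟩
    rcases Nat.lt_or_ge p 3 with h | h
    · left
      have := h2.two_le
      omega
    · right
      exact ⟨⟨h, h1⟩, h2⟩
  · rintro (rfl | ⟨⟨h1, h2⟩, h3⟩)
    · exact ⟨hz, Nat.prime_two⟩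
    · exact ⟨h2, h3⟩

lemma two_notMem (z : ℕ) : 2 ∉ (Icc 3 z).filter Nat.Prime := by
  rw [mem_filter, mem_Icc]
  omega

/-- the truncated series, even shifts -/
lemma WW_even (z h : ℕ) (hz : 2 ≤ z) (hh : Even h) : WW z h =
    2 * PC z * ∏ p ∈ (Icc 3 z).filter Nat.Prime, (if p ∣ h then ((p : ℝ) - 1) / (p - 2) else 1) := by
  have h2 : nu h 2 = 1 := by
    unfold nu
    rw [if_pos hh.two_dvd]
  have e1 : WW z h = ∏ p ∈ pz z, ((1 - (nu h p : ℝ) / p) / (1 - 1 / (p : ℝ)) ^ 2) := by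
    unfold WW Vz
    rw [prod_div_distrib, prod_pow, inv_pow, div_eq_mul_inv, mul_comm]
  rw [e1, pz_split z hz, prod_insert (two_notMem z), h2]
  have e2 : (1 - ((1 : ℕ) : ℝ) / ((2 : ℕ) : ℝ)) / (1 - 1 / ((2 : ℕ) : ℝ)) ^ 2 = 2 := by norm_num
  rw [e2]
  unfold PC
  rw [mul_assoc, ← prod_mul_distrib]
  congr 1
  refine prod_congr rfl fun p hp => ?_
  rw [mem_filter, mem_Icc] at hp
  have h3 : (3 : ℝ) ≤ p := by exact_mod_cast hp.1.1
  have n0 : (p : ℝ) ≠ 0 := by linarith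
  have n1 : (p : ℝ) - 1 ≠ 0 := by linarith
  have n2 : (p : ℝ) - 2 ≠ 0 := by linarith
  unfold nu
  split_ifs with hd
  · push_cast
    field_simp
    ring
  · push_cast
    field_simp
    ring

/-- the truncated series, odd shifts -/
lemma WW_odd (z h : ℕ) (hz : 2 ≤ z) (hh : ¬ Even h) : WW z h = 0 := by
  unfold WW
  rw [pz_split z hz, prod_insert (two_notMem z)]
  have h2 : nu h 2 = 2 := by
    unfold nu
    rw [if_neg (fun h' => hh (even_iff_two_dvd.2 h'))]
  rw [h2]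
  norm_num

lemma xr_ge {p : ℕ} (hp : 3 ≤ p) : 1 ≤ ((p : ℝ) - 1) / (p - 2) := by
  have h3 : (3 : ℝ) ≤ p := by exact_mod_cast hp
  rw [le_div_iff₀ (by linarith)]
  linarith

/-- the number of large prime factors -/
lemma big_card (h z : ℕ) (hh : 1 ≤ h) : ((h.primeFactors.filter (fun p => z < p)).card : ℝ) * Real.log 2 ≤ Real.log h := by
  have h1 : 2 ^ (h.primeFactors.filter (fun p => z < p)).card ≤ ∏ p ∈ h.primeFactors.filter (fun p => z < p), p := by
    rw [← prod_const]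
    exact prod_le_prod' fun p hp => (Nat.prime_of_mem_primeFactors (mem_filter.1 hp).1).two_le
  have h2 : ∏ p ∈ h.primeFactors.filter (fun p => z < p), p ≤ h := by
    refine le_trans (prod_le_prod_of_subset_of_one_le' (filter_subset _ _) fun p hp _ =>
      (Nat.prime_of_mem_primeFactors hp).one_lt.le) ?_
    exact Nat.le_of_dvd hh (Nat.prod_primeFactors_dvd h)
  have h3 : ((2 : ℝ) ^ (h.primeFactors.filter (fun p => z < p)).card) ≤ h := by exact_mod_cast h1.trans h2
  rw [← Real.log_pow]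
  exact Real.log_le_log (by positivity) h3

/-- truncation error -/
theorem SS_WW (z h : ℕ) (hz : 3 ≤ z) (hh : 1 ≤ h) (hlog : 2 * Real.log h ≤ (z : ℝ) - 1) :
    |SS h - WW z h| ≤ WW z h * ((4 * Real.log h + 1) / ((z : ℝ) - 1)) := by
  have hz3 : (3 : ℝ) ≤ z := by exact_mod_cast hz
  have hl0 : 0 ≤ Real.log h := Real.log_natCast_nonneg h
  by_cases he : Even h
  swap
  · rw [WW_odd z h (by omega) he]
    unfold SS
    rw [if_neg he]
    simp
  rw [WW_even z h (by omega) he]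
  unfold SS
  rw [if_pos he]
  obtain ⟨X, hX⟩ : ∃ X, X = ∏ p ∈ (Icc 3 z).filter Nat.Prime, (if p ∣ h then ((p : ℝ) - 1) / (p - 2) else 1) := ⟨_, rfl⟩
  obtain ⟨Y, hY⟩ : ∃ Y, Y = ∏ p ∈ h.primeFactors.filter (fun p => z < p), (((p : ℝ) - 1) / (p - 2)) := ⟨_, rfl⟩
  have hXY : ∏ p ∈ h.primeFactors.filter (fun p => 2 < p), (((p : ℝ) - 1) / (p - 2)) = X * Y := by
    rw [hX, hY, ← prod_filter]
    rw [← prod_union]
    · refine prod_congr ?_ fun _ _ => rfl
      ext p
      simp only [mem_filter, mem_union, Nat.mem_primeFactors, mem_Icc]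
      constructor
      · rintro ⟨⟨h1, h2, h3⟩, h4⟩
        by_cases h5 : p ≤ z
        · left
          exact ⟨⟨⟨by omega, h5⟩, h1⟩, h2⟩
        · right
          exact ⟨⟨h1, h2, h3⟩, by omega⟩
      · rintro (⟨⟨⟨h1, h2⟩, h3⟩, h4⟩ | ⟨⟨h1, h2, h3⟩, h4⟩)
        · exact ⟨⟨h3, h4, by omega⟩, by omega⟩
        · exact ⟨⟨h1, h2, h3⟩, by omega⟩
    · rw [disjoint_left]
      intro p hp hp2
      rw [mem_filter, mem_filter, mem_Icc] at hp
      rw [mem_filter] at hp2
      omega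
  have hX1 : 1 ≤ X := by
    rw [hX]
    calc (1 : ℝ) = ∏ p ∈ (Icc 3 z).filter Nat.Prime, (1 : ℝ) := by simp
      _ ≤ _ := by
        apply prod_le_prod
        · intro p _
          exact zero_le_one
        · intro p hp
          split_ifs
          · exact xr_ge (mem_Icc.1 (mem_filter.1 hp).1).1
          · exact le_rfl
  have hY1 : 1 ≤ Y := by
    rw [hY]
    calc (1 : ℝ) = ∏ p ∈ h.primeFactors.filter (fun p => z < p), (1 : ℝ) := by simp
      _ ≤ _ := by
        apply prod_le_prod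
        · intro p _
          exact zero_le_one
        · intro p hp
          exact xr_ge (by have := (mem_filter.1 hp).2; omega)
  obtain ⟨x, hx⟩ : ∃ x : ℝ, x = (h.primeFactors.filter (fun p => z < p)).card * (1 / ((z : ℝ) - 1)) := ⟨_, rfl⟩
  have hz1 : 0 < (z : ℝ) - 1 := by linarith
  have hcard := big_card h z hh
  have hl2 : (1 : ℝ) / 2 < Real.log 2 := by
    have := Real.log_two_gt_d9
    linarith
  have hcl : ((h.primeFactors.filter (fun p => z < p)).card : ℝ) ≤ 2 * Real.log h := by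
    have h0 : (0 : ℝ) ≤ ((h.primeFactors.filter (fun p => z < p)).card : ℝ) := Nat.cast_nonneg _
    nlinarith
  have hx1 : x ≤ 2 * Real.log h / ((z : ℝ) - 1) := by
    rw [hx, mul_one_div]
    exact div_le_div_of_nonneg_right hcl hz1.le
  have hx2 : x ≤ 1 := hx1.trans (by rw [div_le_one hz1]; exact hlog)
  have hx0 : 0 ≤ x := by rw [hx]; positivity
  have hYx : Y ≤ 1 + 4 * Real.log h / ((z : ℝ) - 1) := by
    have h1 : Y ≤ (1 + 1 / ((z : ℝ) - 1)) ^ (h.primeFactors.filter (fun p => z < p)).card := by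
      rw [hY, ← prod_const]
      apply prod_le_prod
      · intro p hp
        exact zero_le_one.trans (xr_ge (by have := (mem_filter.1 hp).2; omega))
      · intro p hp
        have h2 : (z : ℝ) + 1 ≤ p := by exact_mod_cast (mem_filter.1 hp).2
        have h3 : ((p : ℝ) - 1) / (p - 2) = 1 + 1 / ((p : ℝ) - 2) := by
          have : (p : ℝ) - 2 ≠ 0 := by linarith
          field_simp
          ring
        rw [h3]
        have h4 : 1 / ((p : ℝ) - 2) ≤ 1 / ((z : ℝ) - 1) := one_div_le_one_div_of_le hz1 (by linarith)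
        linarith
    have h2 : (1 + 1 / ((z : ℝ) - 1)) ^ (h.primeFactors.filter (fun p => z < p)).card ≤ Real.exp x := by
      have h3 : 1 + 1 / ((z : ℝ) - 1) ≤ Real.exp (1 / ((z : ℝ) - 1)) := by
        have := Real.add_one_le_exp (1 / ((z : ℝ) - 1))
        linarith
      calc _ ≤ Real.exp (1 / ((z : ℝ) - 1)) ^ (h.primeFactors.filter (fun p => z < p)).card :=
            pow_le_pow_left₀ (by positivity) h3 _
        _ = Real.exp x := by rw [← Real.exp_nat_mul, hx]
    have h4 : Real.exp x ≤ 1 + 2 * x := by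
      have h5 := Real.abs_exp_sub_one_le (x := x) (by rw [abs_of_nonneg hx0]; exact hx2)
      rw [abs_of_nonneg hx0] at h5
      have := (abs_le.1 h5).2
      linarith
    have h5 : 2 * x ≤ 4 * Real.log h / ((z : ℝ) - 1) := by
      calc 2 * x ≤ 2 * (2 * Real.log h / ((z : ℝ) - 1)) := by linarith
        _ = _ := by ring
    linarith
  have hP := PC_nonneg z
  have hC1 := C2_le z
  have hC2 := C2_ge z (by omega)
  have hC0 := C2_nonneg
  rw [hXY, ← hX]
  have hup : 2 * C2 * (X * Y) ≤ 2 * PC z * X * (1 + 4 * Real.log h / ((z : ℝ) - 1)) := by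
    calc 2 * C2 * (X * Y) ≤ 2 * PC z * (X * (1 + 4 * Real.log h / ((z : ℝ) - 1))) := by
          gcongr
      _ = _ := by ring
  have hlo : 2 * PC z * X * (1 - 1 / ((z : ℝ) - 1)) ≤ 2 * C2 * (X * Y) := by
    have h6 : 0 ≤ 1 - 1 / ((z : ℝ) - 1) := by
      rw [sub_nonneg, div_le_one hz1]
      linarith
    calc 2 * PC z * X * (1 - 1 / ((z : ℝ) - 1)) = 2 * (PC z * (1 - 1 / ((z : ℝ) - 1))) * (X * 1) := by ring
      _ ≤ 2 * C2 * (X * Y) := by gcongr
  have hW : 0 ≤ 2 * PC z * X := by positivity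
  have h7 : 0 ≤ Real.log h / ((z : ℝ) - 1) := by positivity
  have h8 : 0 ≤ 1 / ((z : ℝ) - 1) := by positivity
  rw [abs_le]
  constructor
  · have : 2 * PC z * X * ((4 * Real.log h + 1) / ((z : ℝ) - 1)) =
        2 * PC z * X * (4 * (Real.log h / ((z : ℝ) - 1))) + 2 * PC z * X * (1 / ((z : ℝ) - 1)) := by ring
    rw [this]
    have h9 : 0 ≤ 2 * PC z * X * (4 * (Real.log h / ((z : ℝ) - 1))) := by positivity
    nlinarith
  · have : 2 * PC z * X * ((4 * Real.log h + 1) / ((z : ℝ) - 1)) =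
        2 * PC z * X * (4 * Real.log h / ((z : ℝ) - 1)) + 2 * PC z * X * (1 / ((z : ℝ) - 1)) := by ring
    rw [this]
    have h9 : 0 ≤ 2 * PC z * X * (1 / ((z : ℝ) - 1)) := by positivity
    nlinarith

lemma WW_nonneg (z h : ℕ) : 0 ≤ WW z h := by
  unfold WW
  apply mul_nonneg (by positivity)
  apply prod_nonneg
  intro p hp
  have h2 : (2 : ℝ) ≤ p := by exact_mod_cast (mem_pz.1 hp).2.two_le
  rw [sub_nonneg, div_le_one (by linarith)]
  unfold nu
  split_ifs
  · push_cast; linarith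
  · push_cast; linarith

lemma WW_le (z h : ℕ) : WW z h ≤ (Vz z)⁻¹ := by
  have hV := Vz_prod_pos z
  have h1 : ∏ p ∈ pz z, (1 - (nu h p : ℝ) / p) ≤ Vz z := by
    unfold Vz
    apply prod_le_prod
    · intro p hp
      have h2 : (2 : ℝ) ≤ p := by exact_mod_cast (mem_pz.1 hp).2.two_le
      rw [sub_nonneg, div_le_one (by linarith)]
      unfold nu
      split_ifs
      · push_cast; linarith
      · push_cast; linarith
    · intro p hp
      have h2 : (2 : ℝ) ≤ p := by exact_mod_cast (mem_pz.1 hp).2.two_le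
      have h3 : (1 : ℝ) ≤ nu h p := by
        unfold nu
        split_ifs <;> norm_num
      have h4 : 1 / (p : ℝ) ≤ (nu h p : ℝ) / p := div_le_div_of_nonneg_right h3 (by linarith)
      linarith
  unfold WW
  calc (Vz z)⁻¹ ^ 2 * ∏ p ∈ pz z, (1 - (nu h p : ℝ) / p) ≤ (Vz z)⁻¹ ^ 2 * Vz z :=
        mul_le_mul_of_nonneg_left h1 (by positivity)
    _ = (Vz z)⁻¹ := by
      rw [pow_two, mul_assoc, inv_mul_cancel₀ hV.ne', mul_one]

end Pool.Agent.Run7.h364.MK.VR
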