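import Pool.Agent.Run7.h364.MK.OneU
import Pool.Agent.Run7.h364.MK.Sing

/-!
# Pair correlation of the primes along short flat distributions, uniformly in the dilation
-/

set_option autoImplicit false

namespace Pool.Agent.Run7.h364.MK.VR

open Finset
open Pool.Agent.H373R2.T7 (pz mem_pz Vz Vz_ge lamz lamI lamzI nuB PerB sys_count ev_L' Vz_inv_small)
open Pool.Agent.Run7.h794.MK
open Pool.Agent.Run7.h364.MK

/-- the divisibility conditions -/
def QQ (k p n : ℕ) : Prop := p ∣ n ∨ p ∣ n + k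

lemma nuB_QQ (k p : ℕ) (hp : p.Prime) : nuB (QQ k) p = nu k p := by
  classical
  have hp0 := hp.pos
  unfold nuB nu
  by_cases hk : p ∣ k
  · rw [if_pos hk, card_eq_one]
    refine ⟨0, ?_⟩
    ext r
    rw [mem_filter, mem_range, mem_singleton]
    unfold QQ
    rw [Nat.dvd_add_left hk, or_self]
    constructor
    · rintro ⟨h1, h2⟩
      exact Nat.eq_zero_of_dvd_of_lt h2 h1
    · rintro rfl
      exact ⟨hp0, dvd_zero p⟩
  · rw [if_neg hk]
    have hm : 0 < k % p := Nat.pos_of_ne_zero fun h => hk (Nat.dvd_of_mod_eq_zero h)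
    have hm2 := Nat.mod_lt k hp0
    have hne : (0 : ℕ) ≠ p - k % p := by omega
    rw [← card_pair hne]
    congr 1
    ext r
    rw [mem_filter, mem_range, mem_insert, mem_singleton]
    unfold QQ
    constructor
    · rintro ⟨h1, h2 | h2⟩
      · left
        exact Nat.eq_zero_of_dvd_of_lt h2 h1
      · right
        have h3 : p ∣ r + k % p := by
          rw [Nat.dvd_iff_mod_eq_zero] at h2 ⊢
          rwa [Nat.add_mod, Nat.mod_mod, ← Nat.add_mod]
        obtain ⟨c, hc⟩ := h3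
        have hc1 : c < 2 := by
          by_contra hcon
          have : p * 2 ≤ p * c := Nat.mul_le_mul_left p (by omega)
          omega
        have hc0 : c ≠ 0 := by
          rintro rfl
          omega
        have : c = 1 := by omega
        rw [this] at hc
        omega
    · rintro (rfl | rfl)
      · exact ⟨hp0, Or.inl (dvd_zero p)⟩
      · refine ⟨by omega, Or.inr ?_⟩
        have h4 := Nat.div_add_mod k p
        refine ⟨k / p + 1, ?_⟩
        rw [mul_add, mul_one]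
        omega

lemma per_QQ (k : ℕ) : PerB (QQ k) 2 := by
  refine ⟨fun p n => ?_, fun p hp => ?_⟩
  · unfold QQ
    rw [Nat.dvd_iff_mod_eq_zero, Nat.dvd_iff_mod_eq_zero, Nat.dvd_iff_mod_eq_zero, Nat.dvd_iff_mod_eq_zero,
      Nat.mod_mod, Nat.add_mod n k p, Nat.add_mod (n % p) k p, Nat.mod_mod]
  · rw [nuB_QQ k p hp]
    unfold nu
    split_ifs <;> norm_num

/-- the model counts -/
theorem model_pair (E U : ℕ) : ∃ N₀ : ℕ, ∀ N : ℕ, N₀ ≤ N → ∀ z : ℕ, 1 ≤ z → (z : ℝ) ≤ Real.log N ^ E → ∀ k : ℕ,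
    |∑ n ∈ Icc 1 N, lamz z n * lamz z (n + k) - N * WW z k| ≤ (Vz z)⁻¹ ^ 2 * (N / Real.log N ^ U) := by
  classical
  obtain ⟨N₀, h⟩ := sys_count 2 E U (by norm_num)
  refine ⟨N₀, fun N hN z hz hzE k => ?_⟩
  have h1 := h N hN z hz hzE (QQ k) (per_QQ k)
  have e1 : ∑ n ∈ Icc 1 N, lamz z n * lamz z (n + k) =
      (Vz z)⁻¹ ^ 2 * ((((Icc 1 N).filter (fun n : ℕ => ∀ p ∈ pz z, ¬ QQ k p n)).card : ℕ) : ℝ) := by
    rw [card_filter]
    push_cast
    rw [mul_sum]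
    refine sum_congr rfl fun n _ => ?_
    unfold lamz QQ
    by_cases ha : ∀ p ∈ pz z, ¬ p ∣ n
    · by_cases hb : ∀ p ∈ pz z, ¬ p ∣ n + k
      · rw [if_pos ha, if_pos hb, if_pos (fun p hp => by
          rw [not_or]
          exact ⟨ha p hp, hb p hp⟩)]
        ring
      · rw [if_pos ha, if_neg hb, if_neg (fun hc => hb fun p hp => (not_or.1 (hc p hp)).2)]
        ring
    · have hcc : ¬ ∀ p ∈ pz z, ¬ (p ∣ n ∨ p ∣ n + k) := fun hc => ha fun p hp => (not_or.1 (hc p hp)).1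
      rw [if_neg ha, zero_mul, if_neg hcc, mul_zero]
  have e2 : (N : ℝ) * WW z k = (Vz z)⁻¹ ^ 2 * (N * ∏ p ∈ pz z, (1 - (nuB (QQ k) p : ℝ) / p)) := by
    unfold WW
    have : ∏ p ∈ pz z, (1 - (nuB (QQ k) p : ℝ) / p) = ∏ p ∈ pz z, (1 - (nu k p : ℝ) / p) := by
      refine prod_congr rfl fun p hp => ?_
      rw [nuB_QQ k p (mem_pz.1 hp).2]
    rw [this]
    ring
  rw [e1, e2, ← mul_sub, abs_mul, abs_of_nonneg (by positivity : (0 : ℝ) ≤ (Vz z)⁻¹ ^ 2)]
  exact mul_le_mul_of_nonneg_left h1 (by positivity)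

/-- exchange of the two factors of a correlation -/
lemma shift_sum (N k : ℕ) (hk : k ≤ N) (f g : ℕ → ℝ) (Kf Kg : ℝ) (hf : ∀ n, 1 ≤ n → n ≤ N → |f n| ≤ Kf)
    (hg : ∀ m, 1 ≤ m → m ≤ 2 * N → |g m| ≤ Kg) (hKg : 0 ≤ Kg) (F : ℤ → ℝ)
    (hF : ∀ j : ℤ, F j = if 1 ≤ j then f j.toNat else 0) :
    |∑ n ∈ Icc 1 N, f n * g (n + k) - ∑ m ∈ Icc 1 N, g m * F ((m : ℤ) - k)| ≤ k * (Kf * Kg) := by
  have e1 : ∑ m ∈ Icc 1 N, g m * F ((m : ℤ) - k) = ∑ n ∈ Icc 1 (N - k), f n * g (n + k) := by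
    have h1 : ∑ m ∈ Icc 1 N, g m * F ((m : ℤ) - k) = ∑ m ∈ Icc (k + 1) N, g m * F ((m : ℤ) - k) := by
      symm
      apply sum_subset
      · intro m hm
        rw [mem_Icc] at hm ⊢
        omega
      · intro m hm hm2
        rw [mem_Icc] at hm hm2
        rw [hF, if_neg (by omega), mul_zero]
    rw [h1]
    symm
    apply sum_bij (fun n _ => n + k)
    · intro n hn
      rw [mem_Icc] at hn ⊢
      omega
    · intro a _ b _ hab
      omega
    · intro m hm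
      rw [mem_Icc] at hm
      exact ⟨m - k, by rw [mem_Icc]; omega, by omega⟩
    · intro n hn
      rw [mem_Icc] at hn
      have h2 : (((n + k : ℕ) : ℤ) - k) = (n : ℤ) := by push_cast; ring
      rw [h2, hF, if_pos (by exact_mod_cast hn.1), Int.toNat_natCast]
      ring
  have e2 : ∑ n ∈ Icc 1 N, f n * g (n + k) = ∑ n ∈ Icc 1 (N - k), f n * g (n + k) +
      ∑ n ∈ Ioc (N - k) N, f n * g (n + k) := by
    have : Icc 1 N = Icc 1 (N - k) ∪ Ioc (N - k) N := by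
      ext n
      simp only [mem_union, mem_Icc, mem_Ioc]
      omega
    rw [this, sum_union]
    rw [disjoint_left]
    intro n hn hn2
    rw [mem_Icc] at hn
    rw [mem_Ioc] at hn2
    omega
  rw [e1, e2, add_sub_cancel_left]
  refine (abs_sum_le_sum_abs _ _).trans ?_
  have h3 : ∀ n ∈ Ioc (N - k) N, |f n * g (n + k)| ≤ Kf * Kg := by
    intro n hn
    rw [mem_Ioc] at hn
    rw [abs_mul]
    have h4 := hf n (by omega) hn.2
    have h5 := hg (n + k) (by omega) (by omega)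
    exact mul_le_mul h4 h5 (abs_nonneg _) ((abs_nonneg _).trans h4)
  refine (sum_le_sum h3).trans (le_of_eq ?_)
  rw [sum_const, Nat.card_Ioc, nsmul_eq_mul]
  congr 2
  omega

lemma lamz_le (z n : ℕ) : |lamz z n| ≤ (Vz z)⁻¹ := by
  have hV := Vz_prod_pos z
  unfold lamz
  split_ifs
  · rw [abs_of_pos (by positivity)]
  · rw [abs_zero]
    positivity

/-- the correlation -/
noncomputable def LL (N k : ℕ) : ℝ :=
  ∑ n ∈ Icc 1 N, ArithmeticFunction.vonMangoldt n * ArithmeticFunction.vonMangoldt (n + k)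

set_option maxHeartbeats 1000000 in
/-- one shift -/
lemma pair_point (N k z : ℕ) (L : ℝ) (hL : L = Real.log N) (hL1 : 20 ≤ L) (U : ℕ) (hk : 1 ≤ k) (hkN : (k : ℝ) ≤ N / L ^ (U + 8))
    (hz : L ^ (U + 8) ≤ z) (hV : (Vz z)⁻¹ ≤ L)
    (hm : |∑ n ∈ Icc 1 N, lamz z n * lamz z (n + k) - N * WW z k| ≤ (Vz z)⁻¹ ^ 2 * (N / L ^ (U + 6))) :
    |LL N k - N * SS k| ≤
      |∑ n ∈ Icc 1 N, ArithmeticFunction.vonMangoldt n * (lamI ((n : ℤ) + k) - lamzI z ((n : ℤ) + k))| +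
      |∑ n ∈ Icc 1 N, lamz z n * (lamI ((n : ℤ) - k) - lamzI z ((n : ℤ) - k))| + N / L ^ (U + 3) := by
  have hV0 : 0 < (Vz z)⁻¹ := inv_pos.2 (Vz_prod_pos z)
  have hL0 : 0 < L := by linarith
  have hN0 : (0 : ℝ) ≤ N := Nat.cast_nonneg _
  have hkN' : (k : ℝ) ≤ N := hkN.trans (div_le_self hN0 (one_le_pow₀ (by linarith)))
  have hkN2 : k ≤ N := by exact_mod_cast hkN'
  have hN1 : 1 ≤ N := hk.trans hkN2
  -- the values of the model at natural numbers
  have hI : ∀ n : ℕ, 1 ≤ n → lamI ((n : ℤ) + k) = ArithmeticFunction.vonMangoldt (n + k) := by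
    intro n hn
    unfold lamI
    rw [if_pos (by omega)]
    congr 1
  have hzI : ∀ n : ℕ, 1 ≤ n → lamzI z ((n : ℤ) + k) = lamz z (n + k) := by
    intro n hn
    unfold lamzI
    rw [if_pos (by omega)]
    congr 1
  have hLam : ∀ n : ℕ, 1 ≤ n → n ≤ N → |ArithmeticFunction.vonMangoldt n| ≤ L := by
    intro n hn hnN
    rw [abs_of_nonneg ArithmeticFunction.vonMangoldt_nonneg, hL]
    exact ArithmeticFunction.vonMangoldt_le_log.trans (Real.log_le_log (by exact_mod_cast hn) (by exact_mod_cast hnN))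
  have t2 := shift_sum N k hkN2 (fun n => ArithmeticFunction.vonMangoldt n) (lamz z) L (Vz z)⁻¹ hLam
    (fun m _ _ => lamz_le z m) hV0.le lamI (fun j => rfl)
  have t4 := shift_sum N k hkN2 (lamz z) (lamz z) (Vz z)⁻¹ (Vz z)⁻¹ (fun m _ _ => lamz_le z m)
    (fun m _ _ => lamz_le z m) hV0.le (lamzI z) (fun j => rfl)
  have hzr : (2 : ℝ) * L ^ (U + 7) ≤ (z : ℝ) := by
    refine le_trans ?_ hz
    have e : L ^ (U + 8) = L * L ^ (U + 7) := by rw [pow_succ]; ring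
    rw [e]
    exact mul_le_mul_of_nonneg_right (by linarith) (by positivity)
  have hp1 : L ≤ L ^ (U + 7) := by
    calc L = L ^ 1 := (pow_one L).symm
      _ ≤ L ^ (U + 7) := pow_le_pow_right₀ (by linarith) (by omega)
  have hz1 : L ^ (U + 7) ≤ (z : ℝ) - 1 := by linarith
  have hz3 : 3 ≤ z := by
    have : (3 : ℝ) ≤ z := by linarith
    exact_mod_cast this
  have hlk : Real.log k ≤ L := by
    rw [hL]
    exact Real.log_le_log (by exact_mod_cast hk) hkN'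
  have hlk0 : 0 ≤ Real.log k := Real.log_natCast_nonneg k
  have hp2 : 2 * L ≤ L ^ (U + 7) := by
    calc 2 * L ≤ L * L := by nlinarith
      _ = L ^ 2 := by ring
      _ ≤ L ^ (U + 7) := pow_le_pow_right₀ (by linarith) (by omega)
  have t6 := SS_WW z k hz3 hk (by linarith)
  have t6' : |SS k - WW z k| ≤ 1 / L ^ (U + 4) := by
    refine t6.trans ?_
    have hW0 := WW_nonneg z k
    have hW1 := WW_le z k
    have h1 : (4 * Real.log k + 1) / ((z : ℝ) - 1) ≤ 5 * L / L ^ (U + 7) := by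
      apply div_le_div₀ (by positivity) (by linarith) (by positivity) hz1
    calc WW z k * ((4 * Real.log k + 1) / ((z : ℝ) - 1)) ≤ L * (5 * L / L ^ (U + 7)) := by
          apply mul_le_mul (hW1.trans hV) h1 _ hL0.le
          apply div_nonneg (by linarith)
          linarith [pow_pos hL0 (U + 7)]
      _ = 5 / L * (1 / L ^ (U + 4)) := by
          have : L ^ (U + 7) = L ^ (U + 4) * L ^ 3 := by rw [← pow_add]
          rw [this]
          field_simp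
      _ ≤ 1 * (1 / L ^ (U + 4)) := by
          apply mul_le_mul_of_nonneg_right _ (by positivity)
          rw [div_le_one hL0]
          linarith
      _ = _ := one_mul _
  have hpw : L ^ (U + 8) = L ^ (U + 6) * L ^ 2 := by rw [← pow_add]
  have hpw4 : L ^ (U + 6) = L ^ (U + 4) * L ^ 2 := by rw [← pow_add]
  have b2 : (k : ℝ) * (L * (Vz z)⁻¹) ≤ N / L ^ (U + 6) := by
    calc (k : ℝ) * (L * (Vz z)⁻¹) ≤ N / L ^ (U + 8) * (L * L) := by gcongr
      _ = N / L ^ (U + 6) := by rw [hpw]; field_simp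
  have b4 : (k : ℝ) * ((Vz z)⁻¹ * (Vz z)⁻¹) ≤ N / L ^ (U + 6) := by
    calc (k : ℝ) * ((Vz z)⁻¹ * (Vz z)⁻¹) ≤ N / L ^ (U + 8) * (L * L) := by gcongr
      _ = N / L ^ (U + 6) := by rw [hpw]; field_simp
  have b5 : (Vz z)⁻¹ ^ 2 * (N / L ^ (U + 6)) ≤ N / L ^ (U + 4) := by
    calc (Vz z)⁻¹ ^ 2 * (N / L ^ (U + 6)) ≤ L ^ 2 * (N / L ^ (U + 6)) := by gcongr
      _ = N / L ^ (U + 4) := by rw [hpw4]; field_simp
  have b6 : |N * (WW z k - SS k)| ≤ N / L ^ (U + 4) := by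
    rw [abs_mul, abs_of_nonneg hN0, abs_sub_comm]
    calc (N : ℝ) * |SS k - WW z k| ≤ N * (1 / L ^ (U + 4)) := mul_le_mul_of_nonneg_left t6' hN0
      _ = _ := by ring
  -- the decomposition
  have d1 : LL N k - ∑ n ∈ Icc 1 N, ArithmeticFunction.vonMangoldt n * lamz z (n + k) =
      ∑ n ∈ Icc 1 N, ArithmeticFunction.vonMangoldt n * (lamI ((n : ℤ) + k) - lamzI z ((n : ℤ) + k)) := by
    unfold LL
    rw [← sum_sub_distrib]
    refine sum_congr rfl fun n hn => ?_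
    rw [mem_Icc] at hn
    rw [hI n hn.1, hzI n hn.1]
    ring
  have d3 : ∑ m ∈ Icc 1 N, lamz z m * lamI ((m : ℤ) - k) - ∑ m ∈ Icc 1 N, lamz z m * lamzI z ((m : ℤ) - k) =
      ∑ n ∈ Icc 1 N, lamz z n * (lamI ((n : ℤ) - k) - lamzI z ((n : ℤ) - k)) := by
    rw [← sum_sub_distrib]
    refine sum_congr rfl fun n _ => ?_
    ring
  obtain ⟨A1, hA1⟩ : ∃ A1, A1 = ∑ n ∈ Icc 1 N, ArithmeticFunction.vonMangoldt n * lamz z (n + k) := ⟨_, rfl⟩
  obtain ⟨A2, hA2⟩ : ∃ A2, A2 = ∑ m ∈ Icc 1 N, lamz z m * lamI ((m : ℤ) - k) := ⟨_, rfl⟩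
  obtain ⟨A3, hA3⟩ : ∃ A3, A3 = ∑ m ∈ Icc 1 N, lamz z m * lamzI z ((m : ℤ) - k) := ⟨_, rfl⟩
  obtain ⟨A4, hA4⟩ : ∃ A4, A4 = ∑ n ∈ Icc 1 N, lamz z n * lamz z (n + k) := ⟨_, rfl⟩
  rw [← hA1, ← hA2] at t2
  rw [← hA4, ← hA3] at t4
  rw [← hA4] at hm
  rw [← hA2, ← hA3] at d3
  rw [← hA1] at d1
  rw [← d1, ← d3]
  have e : LL N k - N * SS k = (LL N k - A1) + (A1 - A2) + (A2 - A3) + -(A4 - A3) + (A4 - N * WW z k) + N * (WW z k - SS k) := by
    ring
  rw [e]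
  have f1 := abs_add_le ((LL N k - A1) + (A1 - A2) + (A2 - A3) + -(A4 - A3) + (A4 - N * WW z k)) (N * (WW z k - SS k))
  have f2 := abs_add_le ((LL N k - A1) + (A1 - A2) + (A2 - A3) + -(A4 - A3)) (A4 - N * WW z k)
  have f3 := abs_add_le ((LL N k - A1) + (A1 - A2) + (A2 - A3)) (-(A4 - A3))
  have f4 := abs_add_le ((LL N k - A1) + (A1 - A2)) (A2 - A3)
  have f5 := abs_add_le (LL N k - A1) (A1 - A2)
  rw [abs_neg] at f3
  have g6 : N / L ^ (U + 6) ≤ N / L ^ (U + 4) :=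
    div_le_div_of_nonneg_left hN0 (by positivity) (pow_le_pow_right₀ (by linarith) (by omega))
  have g3 : 4 * (N / L ^ (U + 4)) ≤ N / L ^ (U + 3) := by
    have : L ^ (U + 4) = L ^ (U + 3) * L := by rw [pow_succ]
    rw [this]
    calc 4 * (N / (L ^ (U + 3) * L)) = (4 / L) * (N / L ^ (U + 3)) := by field_simp
      _ ≤ 1 * (N / L ^ (U + 3)) := by
        apply mul_le_mul_of_nonneg_right _ (by positivity)
        rw [div_le_one hL0]
        linarith
      _ = _ := one_mul _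
  linarith

/-- **Pair correlation**, uniformly in the dilation -/
theorem pair_corr (hlaw : S_LAW') (T U : ℕ) : ∃ V C N₀ : ℕ, ∀ N : ℕ, N₀ ≤ N → ∀ (q : ℕ) (p : ℕ → ℝ), Msh V C 1 N q p →
    (q : ℝ) * Real.log N ^ C ≤ N → ∀ κ : ℕ, 1 ≤ κ → (κ : ℝ) ≤ Real.log N ^ T →
    ∑ v ∈ Ico 1 q, p v * |LL N (κ * v) - N * SS (κ * v)| ≤ N / Real.log N ^ U := by
  obtain ⟨V, C₁, B₀, h1⟩ := t_ONEU hlaw T (U + 6)
  obtain ⟨W, hW⟩ : ∃ W, W = B₀ + U + 8 := ⟨_, rfl⟩
  obtain ⟨N₁, h2⟩ := h1 (W + 1)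
  obtain ⟨N₂, h3⟩ := model_pair (W + 1) (U + 6)
  obtain ⟨N₃, h4⟩ := Vz_inv_small (W + 1)
  obtain ⟨N₄, h5⟩ := ev_L' 20
  refine ⟨V, C₁ + T + U + 8, N₁ + N₂ + N₃ + N₄ + 1, fun N hN q p hp hqC κ hκ hκT => ?_⟩
  obtain ⟨L, hL⟩ : ∃ L, L = Real.log (N : ℝ) := ⟨_, rfl⟩
  have hL20 : 20 ≤ L := by rw [hL]; exact h5 N (by omega)
  have hL0 : 0 < L := by linarith
  have hL1 : 1 ≤ L := by linarith
  have hp' : Msh V C₁ 1 N q p := Msh_mono le_rfl (by omega) (by rw [← hL]; exact hL1) hp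
  rw [← hL] at hqC hκT
  have hqT : (q : ℝ) * L ^ T ≤ N := by
    refine le_trans ?_ hqC
    apply mul_le_mul_of_nonneg_left _ (Nat.cast_nonneg _)
    exact pow_le_pow_right₀ hL1 (by omega)
  obtain ⟨z, hz⟩ : ∃ z, z = ⌈L ^ W⌉₊ := ⟨_, rfl⟩
  have hz1 : L ^ W ≤ z := by rw [hz]; exact Nat.le_ceil _
  have hz2 : (z : ℝ) ≤ L ^ (W + 1) := by
    have h6 : (z : ℝ) < L ^ W + 1 := by rw [hz]; exact Nat.ceil_lt_add_one (by positivity)
    have h7 : 1 ≤ L ^ W := one_le_pow₀ hL1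
    calc (z : ℝ) ≤ L ^ W + 1 := h6.le
      _ ≤ L ^ W * L := by nlinarith
      _ = _ := (pow_succ _ _).symm
  have hz0 : 1 ≤ z := by
    have h7 : 1 ≤ L ^ W := one_le_pow₀ hL1
    have : (1 : ℝ) ≤ z := h7.trans hz1
    exact_mod_cast this
  have hzB : L ^ B₀ ≤ z := (pow_le_pow_right₀ hL1 (by omega)).trans hz1
  have hV := h4 N (by omega) z hz0 (by rw [← hL]; exact hz2)
  rw [← hL] at hV
  have hV0 : 0 < (Vz z)⁻¹ := inv_pos.2 (Vz_prod_pos z)
  have hp3 := hp.2.2.1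
  have hp4 := hp.2.2.2.1
  have hq0 : 0 < q := hp.2.2.2.2.pos
  have hLam : ∀ n ∈ Icc 1 N, |ArithmeticFunction.vonMangoldt n| ≤ L := by
    intro n hn
    rw [mem_Icc] at hn
    rw [abs_of_nonneg ArithmeticFunction.vonMangoldt_nonneg, hL]
    exact ArithmeticFunction.vonMangoldt_le_log.trans (Real.log_le_log (by exact_mod_cast hn.1) (by exact_mod_cast hn.2))
  have k1 := h2 N (by omega) z (by rw [← hL]; exact hzB) (by rw [← hL]; exact hz2) q p hp' (by rw [← hL]; exact hqT) (κ : ℤ)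
    (by exact_mod_cast (by omega : κ ≠ 0)) (by rw [← hL, Int.natAbs_natCast]; exact hκT) 0 (by simp) L hL0
    (fun n => ArithmeticFunction.vonMangoldt n) hLam
  have k2 := h2 N (by omega) z (by rw [← hL]; exact hzB) (by rw [← hL]; exact hz2) q p hp' (by rw [← hL]; exact hqT) (-(κ : ℤ))
    (by rw [neg_ne_zero]; exact_mod_cast (by omega : κ ≠ 0)) (by rw [← hL, Int.natAbs_neg, Int.natAbs_natCast]; exact hκT) 0 (by simp)
    (Vz z)⁻¹ hV0 (fun n => lamz z n) (fun n _ => lamz_le z n)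
  have key : ∀ v ∈ Ico 1 q, p v * |LL N (κ * v) - N * SS (κ * v)| ≤
      p v * |∑ n ∈ Icc 1 N, ArithmeticFunction.vonMangoldt n * (lamI ((n : ℤ) + (0 + (κ : ℤ) * (v : ℕ))) - lamzI z ((n : ℤ) + (0 + (κ : ℤ) * (v : ℕ))))| +
      p v * |∑ n ∈ Icc 1 N, lamz z n * (lamI ((n : ℤ) + (0 + (-(κ : ℤ)) * (v : ℕ))) - lamzI z ((n : ℤ) + (0 + (-(κ : ℤ)) * (v : ℕ))))| +
      p v * (N / L ^ (U + 3)) := by
    intro v hv
    rw [mem_Ico] at hv
    have hkr : ((κ * v : ℕ) : ℝ) ≤ N / L ^ (U + 8) := by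
      rw [le_div_iff₀ (by positivity)]
      push_cast
      have h6 : (v : ℝ) ≤ q := by exact_mod_cast hv.2.le
      calc (κ : ℝ) * v * L ^ (U + 8) ≤ L ^ T * q * L ^ (U + 8) := by gcongr
        _ = q * L ^ (T + U + 8) := by rw [pow_add, pow_add, pow_add]; ring
        _ ≤ q * L ^ (C₁ + T + U + 8) := by
          apply mul_le_mul_of_nonneg_left _ (Nat.cast_nonneg _)
          exact pow_le_pow_right₀ hL1 (by omega)
        _ ≤ N := hqC
    have h6 := pair_point N (κ * v) z L hL hL20 U (Nat.mul_pos (by omega) (by omega)) hkr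
      ((pow_le_pow_right₀ hL1 (by omega)).trans hz1) hV (by
        have := h3 N (by omega) z hz0 (by rw [← hL]; exact hz2) (κ * v)
        rw [← hL] at this
        exact this)
    rw [← mul_add, ← mul_add]
    apply mul_le_mul_of_nonneg_left _ (hp3 v)
    refine h6.trans (le_of_eq ?_)
    have e1 : ∀ n : ℕ, (n : ℤ) + ((κ * v : ℕ) : ℤ) = (n : ℤ) + (0 + (κ : ℤ) * (v : ℕ)) := by
      intro n; push_cast; ring
    have e2 : ∀ n : ℕ, (n : ℤ) - ((κ * v : ℕ) : ℤ) = (n : ℤ) + (0 + (-(κ : ℤ)) * (v : ℕ)) := by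
      intro n; push_cast; ring
    simp only [e1, e2]
  refine (sum_le_sum key).trans ?_
  rw [sum_add_distrib, sum_add_distrib]
  have hsub : Ico 1 q ⊆ range q := by
    intro v hv
    rw [mem_Ico] at hv
    rw [mem_range]
    omega
  have s1 := (sum_le_sum_of_subset_of_nonneg hsub (f := fun v => p v * |∑ n ∈ Icc 1 N, ArithmeticFunction.vonMangoldt n * (lamI ((n : ℤ) + (0 + (κ : ℤ) * (v : ℕ))) - lamzI z ((n : ℤ) + (0 + (κ : ℤ) * (v : ℕ))))|)
    (fun v _ _ => mul_nonneg (hp3 v) (abs_nonneg _))).trans k1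
  have s2 := (sum_le_sum_of_subset_of_nonneg hsub (f := fun v => p v * |∑ n ∈ Icc 1 N, lamz z n * (lamI ((n : ℤ) + (0 + (-(κ : ℤ)) * (v : ℕ))) - lamzI z ((n : ℤ) + (0 + (-(κ : ℤ)) * (v : ℕ))))|)
    (fun v _ _ => mul_nonneg (hp3 v) (abs_nonneg _))).trans k2
  have s3 : ∑ v ∈ Ico 1 q, p v * (N / L ^ (U + 3)) ≤ N / L ^ (U + 3) := by
    rw [← sum_mul]
    have : ∑ v ∈ Ico 1 q, p v ≤ 1 := by
      rw [← hp4]
      exact sum_le_sum_of_subset_of_nonneg hsub fun v _ _ => hp3 v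
    exact mul_le_of_le_one_left (by positivity) this
  rw [← hL] at s1 s2
  have hN0 : (0 : ℝ) ≤ N := Nat.cast_nonneg _
  have s2' : (Vz z)⁻¹ * (N / L ^ (U + 6)) ≤ L * (N / L ^ (U + 6)) := mul_le_mul_of_nonneg_right hV (by positivity)
  have e5 : L * (N / L ^ (U + 6)) = N / L ^ (U + 5) := by
    have : L ^ (U + 6) = L ^ (U + 5) * L := by rw [pow_succ]
    rw [this]
    field_simp
  have g5 : N / L ^ (U + 5) ≤ N / L ^ (U + 3) :=
    div_le_div_of_nonneg_left hN0 (by positivity) (pow_le_pow_right₀ hL1 (by omega))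
  have g3 : 3 * (N / L ^ (U + 3)) ≤ N / L ^ U := by
    have : L ^ (U + 3) = L ^ U * L ^ 3 := by rw [pow_add]
    rw [this]
    calc 3 * (N / (L ^ U * L ^ 3)) = (3 / L ^ 3) * (N / L ^ U) := by field_simp
      _ ≤ 1 * (N / L ^ U) := by
        apply mul_le_mul_of_nonneg_right _ (by positivity)
        rw [div_le_one (by positivity)]
        have : (20 : ℝ) ^ 3 ≤ L ^ 3 := pow_le_pow_left₀ (by norm_num) hL20 3
        linarith
      _ = _ := one_mul _
  rw [← hL]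
  linarith

end Pool.Agent.Run7.h364.MK.VR
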