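import Mathlib
import Pool.Agent.H442R2.EHI.PntErr
import Pool.Agent.H373R2.T7.Minor

/-!
# The first and second moment of the von Mangoldt function
-/

set_option autoImplicit false

namespace Pool.Agent.Run7.h364.MK.VR

open Finset
open Pool.Agent.H442R2.EHI Pool.Agent.H442R2.EHI.PntErrAux
open Pool.Agent.H373R2.T7 (ev_L' ev_log')

/-- the sum of `Λ` -/
noncomputable def ps (N : ℕ) : ℝ := ∑ n ∈ Icc 1 N, ArithmeticFunction.vonMangoldt n

lemma ps_eq (N : ℕ) : ps N = Chebyshev.psi N := by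
  unfold ps Chebyshev.psi
  rw [Nat.floor_natCast]
  refine sum_congr ?_ fun _ _ => rfl
  ext n
  simp only [mem_Icc, mem_Ioc]
  omega

lemma ps_err (U : ℕ) : ∃ C : ℝ, 0 < C ∧ ∀ N : ℕ, 2 ≤ N → |ps N - N| ≤ C * (N / Real.log N ^ U) := by
  obtain ⟨C, hC, h⟩ := thetaU U
  obtain ⟨C2, hC2, h2⟩ := log_pow_le (U + 1)
  refine ⟨C + 2 * C2, by positivity, fun N hN => ?_⟩
  have hN0 : (0 : ℝ) < N := by exact_mod_cast (by omega : 0 < N)
  have hN1 : (1 : ℝ) ≤ N := by exact_mod_cast (by omega : 1 ≤ N)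
  have hL : 0 < Real.log N := Real.log_pos (by exact_mod_cast (by omega : 1 < N))
  have h3 := h N hN
  have h4 := Chebyshev.psi_sub_theta_le hN1
  have h5 := Chebyshev.theta_le_psi (N : ℝ)
  have h6 := h2 N (by omega)
  have hss := Real.mul_self_sqrt hN0.le
  have h7 : 2 * √(N : ℝ) * Real.log N ≤ 2 * C2 * (N / Real.log N ^ U) := by
    rw [mul_div_assoc', le_div_iff₀ (by positivity)]
    calc 2 * √(N : ℝ) * Real.log N * Real.log N ^ U = 2 * √(N : ℝ) * Real.log N ^ (U + 1) := by rw [pow_succ]; ring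
      _ ≤ 2 * √(N : ℝ) * (C2 * √(N : ℝ)) := by gcongr
      _ = 2 * C2 * (√(N : ℝ) * √(N : ℝ)) := by ring
      _ = 2 * C2 * N := by rw [hss]
  rw [ps_eq]
  rw [abs_le] at h3 ⊢
  have h8 : 0 ≤ 2 * C2 * (N / Real.log N ^ U) := by positivity
  constructor
  · linarith
  · linarith

/-- Abel summation -/
lemma abel (N : ℕ) (hN : 1 ≤ N) : ∑ n ∈ Icc 1 N, ArithmeticFunction.vonMangoldt n * Real.log n =
    ps N * Real.log N - ∑ n ∈ Ico 1 N, ps n * (Real.log ((n + 1 : ℕ) : ℝ) - Real.log n) := by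
  induction N, hN using Nat.le_induction with
  | base => simp
  | succ N hN ih =>
    rw [sum_Icc_succ_top (by omega), ih, sum_Ico_succ_top hN]
    have h1 : ps (N + 1) = ps N + ArithmeticFunction.vonMangoldt (N + 1) := by
      unfold ps
      rw [sum_Icc_succ_top (by omega)]
    rw [h1]
    ring

lemma dlog_le (n : ℕ) (hn : 1 ≤ n) : Real.log ((n + 1 : ℕ) : ℝ) - Real.log n ≤ 1 / n := by
  have hn0 : (0 : ℝ) < n := by exact_mod_cast hn
  rw [← Real.log_div (by positivity) hn0.ne']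
  refine (Real.log_le_sub_one_of_pos (by positivity)).trans (le_of_eq ?_)
  push_cast
  field_simp
  ring

lemma dlog_ge (n : ℕ) (hn : 1 ≤ n) : 1 / ((n : ℝ) + 1) ≤ Real.log ((n + 1 : ℕ) : ℝ) - Real.log n := by
  have hn0 : (0 : ℝ) < n := by exact_mod_cast hn
  have h1 := Real.log_le_sub_one_of_pos (show 0 < (n : ℝ) / ((n + 1 : ℕ) : ℝ) by positivity)
  rw [Real.log_div hn0.ne' (by positivity)] at h1
  have h2 : (n : ℝ) / ((n + 1 : ℕ) : ℝ) - 1 = -(1 / ((n : ℝ) + 1)) := by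
    push_cast
    field_simp
    ring
  rw [h2] at h1
  linarith

lemma tel_log (N : ℕ) (hN : 1 ≤ N) : ∑ n ∈ Ico 1 N, (Real.log ((n + 1 : ℕ) : ℝ) - Real.log n) = Real.log N := by
  induction N, hN using Nat.le_induction with
  | base => simp
  | succ N hN ih =>
    rw [sum_Ico_succ_top hN, ih]
    ring

/-- `∑ n (log (n+1) - log n)` -/
lemma nl_sum (N : ℕ) (hN : 1 ≤ N) : |∑ n ∈ Ico 1 N, (n : ℝ) * (Real.log ((n + 1 : ℕ) : ℝ) - Real.log n) - N| ≤
    Real.log N + 1 := by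
  have h1 : ∑ n ∈ Ico 1 N, (n : ℝ) * (Real.log ((n + 1 : ℕ) : ℝ) - Real.log n) ≤ ∑ _n ∈ Ico 1 N, (1 : ℝ) := by
    apply sum_le_sum
    intro n hn
    rw [mem_Ico] at hn
    have hn0 : (0 : ℝ) < n := by exact_mod_cast hn.1
    calc (n : ℝ) * (Real.log ((n + 1 : ℕ) : ℝ) - Real.log n) ≤ n * (1 / n) :=
          mul_le_mul_of_nonneg_left (dlog_le n hn.1) hn0.le
      _ = 1 := by field_simp
  have h2 : ∑ _n ∈ Ico 1 N, (1 : ℝ) - ∑ n ∈ Ico 1 N, (n : ℝ) * (Real.log ((n + 1 : ℕ) : ℝ) - Real.log n) ≤ Real.log N := by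
    rw [← sum_sub_distrib, ← tel_log N hN]
    apply sum_le_sum
    intro n hn
    rw [mem_Ico] at hn
    have hn0 : (0 : ℝ) < n := by exact_mod_cast hn.1
    have h3 := dlog_ge n hn.1
    have h4 : (1 : ℝ) ≤ ((n : ℝ) + 1) * (Real.log ((n + 1 : ℕ) : ℝ) - Real.log n) := by
      calc (1 : ℝ) = ((n : ℝ) + 1) * (1 / ((n : ℝ) + 1)) := by field_simp
        _ ≤ _ := mul_le_mul_of_nonneg_left h3 (by positivity)
    linarith
  have h3 : ∑ _n ∈ Ico 1 N, (1 : ℝ) = N - 1 := by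
    rw [sum_const, Nat.card_Ico, nsmul_eq_mul, mul_one, Nat.cast_sub hN, Nat.cast_one]
  rw [h3] at h1 h2
  have hl : 0 ≤ Real.log N := Real.log_natCast_nonneg N
  rw [abs_le]
  constructor <;> linarith

/-- **the sum of `Λ log`** -/
lemma lamlog (U : ℕ) : ∃ N₀ : ℕ, ∀ N : ℕ, N₀ ≤ N →
    |∑ n ∈ Icc 1 N, ArithmeticFunction.vonMangoldt n * Real.log n - N * (Real.log N - 1)| ≤ N / Real.log N ^ U := by
  obtain ⟨C, hC, h⟩ := ps_err (U + 2)
  obtain ⟨C1, hC1, h1⟩ := sumlog (U + 2)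
  obtain ⟨n1, hn1⟩ := ev_L' (4 * C + 4 * (C * C1) + 4)
  obtain ⟨n2, hn2⟩ := ev_log' (U + 2) 4
  refine ⟨n1 + n2 + 4, fun N hN => ?_⟩
  obtain ⟨L, hL⟩ : ∃ L, L = Real.log (N : ℝ) := ⟨_, rfl⟩
  have hLL := hn1 N (by omega)
  rw [← hL] at hLL
  have hCC : 0 < C * C1 := by positivity
  have hL4 : 4 ≤ L := by linarith
  have hL0 : 0 < L := by linarith
  have hN0 : (0 : ℝ) < N := by exact_mod_cast (by omega : 0 < N)
  have hN1 : (1 : ℝ) ≤ N := by exact_mod_cast (by omega : 1 ≤ N)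
  rw [abel N (by omega)]
  -- splitting the sum
  have e1 : ∑ n ∈ Ico 1 N, ps n * (Real.log ((n + 1 : ℕ) : ℝ) - Real.log n) =
      ∑ n ∈ Ico 1 N, (n : ℝ) * (Real.log ((n + 1 : ℕ) : ℝ) - Real.log n) +
      ∑ n ∈ Ico 1 N, (ps n - n) * (Real.log ((n + 1 : ℕ) : ℝ) - Real.log n) := by
    rw [← sum_add_distrib]
    refine sum_congr rfl fun n _ => ?_
    ring
  have h2 := nl_sum N (by omega)
  have h3 : |∑ n ∈ Ico 1 N, (ps n - n) * (Real.log ((n + 1 : ℕ) : ℝ) - Real.log n)| ≤ 1 + C * C1 * (N / L ^ (U + 2)) := by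
    refine (abs_sum_le_sum_abs _ _).trans ?_
    rw [sum_eq_sum_Ico_succ_bot (by omega : 1 < N)]
    have h4 : |(ps 1 - (1 : ℕ)) * (Real.log ((1 + 1 : ℕ) : ℝ) - Real.log (1 : ℕ))| ≤ 1 := by
      have : ps 1 = 0 := by
        unfold ps
        simp
      rw [this]
      have h5 : Real.log ((1 + 1 : ℕ) : ℝ) ≤ 1 := by
        have := Real.log_two_lt_d9
        norm_num
        linarith
      have h6 : 0 ≤ Real.log ((1 + 1 : ℕ) : ℝ) := Real.log_natCast_nonneg _
      rw [Nat.cast_one, Real.log_one, sub_zero, zero_sub, abs_mul, abs_neg, abs_one, one_mul, abs_of_nonneg h6]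
      exact h5
    have h5 : ∑ n ∈ Ico (1 + 1) N, |(ps n - n) * (Real.log ((n + 1 : ℕ) : ℝ) - Real.log n)| ≤
        ∑ n ∈ Ico 2 N, C * (1 / Real.log n ^ (U + 2)) := by
      apply sum_le_sum
      intro n hn
      rw [mem_Ico] at hn
      have hn0 : (0 : ℝ) < n := by exact_mod_cast (by omega : 0 < n)
      have hln : 0 < Real.log n := Real.log_pos (by exact_mod_cast (by omega : 1 < n))
      have h6 := h n (by omega)
      have h7 := dlog_le n (by omega)
      have h8 := dlog_ge n (by omega)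
      have h9 : 0 ≤ Real.log ((n + 1 : ℕ) : ℝ) - Real.log n := le_trans (by positivity) h8
      rw [abs_mul, abs_of_nonneg h9]
      calc |ps n - n| * (Real.log ((n + 1 : ℕ) : ℝ) - Real.log n) ≤ C * (n / Real.log n ^ (U + 2)) * (1 / n) := by
            apply mul_le_mul h6 h7 h9 (by positivity)
        _ = C * (1 / Real.log n ^ (U + 2)) := by field_simp
    rw [← mul_sum] at h5
    have h6 := h1 N (by omega)
    rw [← hL] at h6
    have h7 : C * ∑ n ∈ Ico 2 N, 1 / Real.log n ^ (U + 2) ≤ C * (C1 * (N / L ^ (U + 2))) := mul_le_mul_of_nonneg_left h6 hC.le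
    have h8 : C * (C1 * (N / L ^ (U + 2))) = C * C1 * (N / L ^ (U + 2)) := by ring
    refine (add_le_add h4 h5).trans ?_
    rw [← h8]
    exact add_le_add le_rfl h7
  have h4 := h N (by omega)
  rw [← hL] at h4 h2
  have h5 : |(ps N - N) * L| ≤ C * (N / L ^ (U + 1)) := by
    rw [abs_mul, abs_of_pos hL0]
    calc |ps N - N| * L ≤ C * (N / L ^ (U + 2)) * L := mul_le_mul_of_nonneg_right h4 hL0.le
      _ = C * (N / L ^ (U + 1)) := by
        have : L ^ (U + 2) = L ^ (U + 1) * L := by rw [pow_succ]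
        rw [this]
        field_simp
  rw [e1, ← hL]
  have e2 : ps N * L - (∑ n ∈ Ico 1 N, (n : ℝ) * (Real.log ((n + 1 : ℕ) : ℝ) - Real.log n) +
      ∑ n ∈ Ico 1 N, (ps n - n) * (Real.log ((n + 1 : ℕ) : ℝ) - Real.log n)) - N * (L - 1) =
      (ps N - N) * L - (∑ n ∈ Ico 1 N, (n : ℝ) * (Real.log ((n + 1 : ℕ) : ℝ) - Real.log n) - N) -
      ∑ n ∈ Ico 1 N, (ps n - n) * (Real.log ((n + 1 : ℕ) : ℝ) - Real.log n) := by ring
  rw [e2]
  have h6 := hn2 N (by omega)
  rw [← hL] at h6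
  have hs1 : 1 ≤ √(N : ℝ) := by rw [Real.one_le_sqrt]; exact hN1
  have hss := Real.mul_self_sqrt hN0.le
  have h7 : L + 2 ≤ (1 / 4) * (N / L ^ U) * 1 := by
    have h8 : 4 * L ^ (U + 2) ≤ N := by nlinarith
    have h9 : 4 * (L + 2) ≤ 4 * L ^ 2 := by nlinarith
    rw [mul_one, one_div, inv_mul_eq_div, div_div, le_div_iff₀ (by positivity)]
    calc (L + 2) * (L ^ U * 4) = (4 * (L + 2)) * L ^ U := by ring
      _ ≤ 4 * L ^ 2 * L ^ U := mul_le_mul_of_nonneg_right h9 (by positivity)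
      _ = 4 * L ^ (U + 2) := by rw [pow_add]; ring
      _ ≤ N := h8
  have h10 : C * (N / L ^ (U + 1)) ≤ (1 / 4) * (N / L ^ U) := by
    have : L ^ (U + 1) = L ^ U * L := pow_succ _ _
    rw [this]
    calc C * (N / (L ^ U * L)) = (C / L) * (N / L ^ U) := by field_simp
      _ ≤ (1 / 4) * (N / L ^ U) := by
        apply mul_le_mul_of_nonneg_right _ (by positivity)
        rw [div_le_iff₀ hL0]
        linarith
  have h11 : C * C1 * (N / L ^ (U + 2)) ≤ (1 / 4) * (N / L ^ U) := by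
    have : L ^ (U + 2) = L ^ U * (L * L) := by rw [pow_add]; ring
    rw [this]
    calc C * C1 * (N / (L ^ U * (L * L))) = (C * C1 / (L * L)) * (N / L ^ U) := by field_simp
      _ ≤ (1 / 4) * (N / L ^ U) := by
        apply mul_le_mul_of_nonneg_right _ (by positivity)
        rw [div_le_iff₀ (by positivity)]
        nlinarith
  have f1 := abs_sub ((ps N - N) * L - (∑ n ∈ Ico 1 N, (n : ℝ) * (Real.log ((n + 1 : ℕ) : ℝ) - Real.log n) - N))
    (∑ n ∈ Ico 1 N, (ps n - n) * (Real.log ((n + 1 : ℕ) : ℝ) - Real.log n))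
  have f2 := abs_sub ((ps N - N) * L) (∑ n ∈ Ico 1 N, (n : ℝ) * (Real.log ((n + 1 : ℕ) : ℝ) - Real.log n) - N)
  have hNL : 0 ≤ N / L ^ U := by positivity
  linarith

/-- **the second moment** -/
theorem lamsq (U : ℕ) : ∃ N₀ : ℕ, ∀ N : ℕ, N₀ ≤ N →
    |∑ n ∈ Icc 1 N, ArithmeticFunction.vonMangoldt n * ArithmeticFunction.vonMangoldt n - N * (Real.log N - 1)| ≤ N / Real.log N ^ U := by
  obtain ⟨n1, h1⟩ := lamlog (U + 1)
  obtain ⟨n2, h2⟩ := ev_L' 4
  obtain ⟨n3, h3⟩ := ev_log' (U + 3) 1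
  refine ⟨n1 + n2 + n3 + 4, fun N hN => ?_⟩
  obtain ⟨L, hL⟩ : ∃ L, L = Real.log (N : ℝ) := ⟨_, rfl⟩
  have hL4 := h2 N (by omega)
  rw [← hL] at hL4
  have hL0 : 0 < L := by linarith
  have hN0 : (0 : ℝ) < N := by exact_mod_cast (by omega : 0 < N)
  have hN1 : (1 : ℝ) ≤ N := by exact_mod_cast (by omega : 1 ≤ N)
  have a1 := h1 N (by omega)
  have a3 := h3 N (by omega)
  rw [← hL] at a1 a3
  have a4 := Chebyshev.psi_sub_theta_le hN1
  rw [← hL] at a4
  -- the difference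
  have b1 : ∑ n ∈ Icc 1 N, ArithmeticFunction.vonMangoldt n * Real.log n -
      ∑ n ∈ Icc 1 N, ArithmeticFunction.vonMangoldt n * ArithmeticFunction.vonMangoldt n ≤ L * (2 * √(N : ℝ) * L) := by
    calc _ = ∑ n ∈ Icc 1 N, ArithmeticFunction.vonMangoldt n * (Real.log n - ArithmeticFunction.vonMangoldt n) := by
          rw [← sum_sub_distrib]
          refine sum_congr rfl fun n _ => ?_
          ring
      _ ≤ ∑ n ∈ Icc 1 N, (if ¬ n.Prime then ArithmeticFunction.vonMangoldt n * L else 0) := by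
          apply sum_le_sum
          intro n hn
          rw [mem_Icc] at hn
          by_cases hp : n.Prime
          · rw [if_neg (not_not.2 hp), ArithmeticFunction.vonMangoldt_apply_prime hp, sub_self, mul_zero]
          · rw [if_pos hp]
            apply mul_le_mul_of_nonneg_left _ ArithmeticFunction.vonMangoldt_nonneg
            have h5 : Real.log n ≤ L := by
              rw [hL]
              exact Real.log_le_log (by exact_mod_cast hn.1) (by exact_mod_cast hn.2)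
            have h6 : (0 : ℝ) ≤ ArithmeticFunction.vonMangoldt n := ArithmeticFunction.vonMangoldt_nonneg
            linarith
      _ = L * (Chebyshev.psi (N : ℝ) - Chebyshev.theta (N : ℝ)) := by
          rw [Chebyshev.psi_sub_theta_eq_sum_not_prime, Nat.floor_natCast, ← sum_filter, mul_sum]
          refine sum_congr ?_ fun n _ => mul_comm _ _
          ext n
          simp only [mem_filter, mem_Icc, mem_Ioc]
          constructor
          · rintro ⟨⟨c1, c2⟩, c3⟩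
            exact ⟨⟨by omega, c2⟩, c3⟩
          · rintro ⟨⟨c1, c2⟩, c3⟩
            exact ⟨⟨by omega, c2⟩, c3⟩
      _ ≤ _ := mul_le_mul_of_nonneg_left a4 hL0.le
  have b2 : 0 ≤ ∑ n ∈ Icc 1 N, ArithmeticFunction.vonMangoldt n * Real.log n -
      ∑ n ∈ Icc 1 N, ArithmeticFunction.vonMangoldt n * ArithmeticFunction.vonMangoldt n := by
    rw [← sum_sub_distrib]
    apply sum_nonneg
    intro n _
    rw [← mul_sub]
    exact mul_nonneg ArithmeticFunction.vonMangoldt_nonneg (sub_nonneg.2 ArithmeticFunction.vonMangoldt_le_log)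
  have hss := Real.mul_self_sqrt hN0.le
  have hs0 : 0 < √(N : ℝ) := Real.sqrt_pos.2 hN0
  have b3 : L * (2 * √(N : ℝ) * L) ≤ (1 / 2) * (N / L ^ U) := by
    have c1 : 4 * L ^ (U + 2) ≤ √(N : ℝ) := by
      rw [one_mul] at a3
      calc 4 * L ^ (U + 2) ≤ L * L ^ (U + 2) := mul_le_mul_of_nonneg_right hL4 (by positivity)
        _ = L ^ (U + 3) := by rw [pow_succ]; ring
        _ ≤ √(N : ℝ) := a3
    rw [one_div, inv_mul_eq_div, div_div, le_div_iff₀ (by positivity)]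
    calc L * (2 * √(N : ℝ) * L) * (L ^ U * 2) = √(N : ℝ) * (4 * L ^ (U + 2)) := by rw [pow_add]; ring
      _ ≤ √(N : ℝ) * √(N : ℝ) := mul_le_mul_of_nonneg_left c1 hs0.le
      _ = N := hss
  have b4 : N / L ^ (U + 1) ≤ (1 / 2) * (N / L ^ U) := by
    have : L ^ (U + 1) = L ^ U * L := pow_succ _ _
    rw [this]
    calc N / (L ^ U * L) = (1 / L) * (N / L ^ U) := by field_simp
      _ ≤ (1 / 2) * (N / L ^ U) := by
        apply mul_le_mul_of_nonneg_right _ (by positivity)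
        exact one_div_le_one_div_of_le (by norm_num) (by linarith)
  rw [← hL]
  rw [abs_le] at a1 ⊢
  constructor
  · linarith
  · linarith

end Pool.Agent.Run7.h364.MK.VR
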