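import Pool.Agent.N873.F15.Dn
import Pool.Agent.Run7.h364.MK.MobV
import Pool.Agent.Run7.h794.MK.AllM

/-!
# The number of squarefree integers with a square root error term
-/

set_option autoImplicit false

namespace Pool.Agent.Run7.h364.MK.MV

open Finset Filter Topology
open Pool.Agent.Y293.SF (mu abs_mu_le mu_zero)
open Pool.Agent.N873.F15.Dn (sf cd count_eq mu_sum ep)
open Pool.Agent.Run7.h794.MK (mob)

lemma cd_val (k X : ℕ) : cd 1 0 k X = X / k := by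
  unfold cd
  have h1 : (Icc 1 X).filter (fun n => k ∣ n ∧ n % 1 = 0) = (Ioc 0 X).filter (fun n => k ∣ n) := by
    ext n
    rw [mem_filter, mem_filter, mem_Icc, mem_Ioc]
    constructor
    · rintro ⟨h, h2, -⟩
      exact ⟨⟨by omega, h.2⟩, h2⟩
    · rintro ⟨h, h2⟩
      exact ⟨⟨by omega, h.2⟩, h2, Nat.mod_one n⟩
  rw [h1, Nat.Ioc_filter_dvd_card_eq_div]

lemma term_le (X d : ℕ) (hd : 1 ≤ d) : |mu d * (cd 1 0 (d ^ 2) X : ℝ) - mu d * (1 / (d : ℝ) ^ 2 * X)| ≤ 1 ∧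
    |mu d * (cd 1 0 (d ^ 2) X : ℝ) - mu d * (1 / (d : ℝ) ^ 2 * X)| ≤ X * ((d : ℝ) ^ 2)⁻¹ := by
  rw [cd_val, ← mul_sub, abs_mul]
  have hd0 : (0 : ℝ) < (d : ℝ) ^ 2 := by
    have : (0 : ℝ) < d := by exact_mod_cast hd
    positivity
  have h1 : ((X / d ^ 2 : ℕ) : ℝ) ≤ (X : ℝ) / (d : ℝ) ^ 2 := by
    have := Nat.cast_div_le (α := ℝ) (m := X) (n := d ^ 2)
    push_cast at this
    exact this
  have h2 : (X : ℝ) / (d : ℝ) ^ 2 < ((X / d ^ 2 : ℕ) : ℝ) + 1 := by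
    rw [div_lt_iff₀ hd0]
    have h3 : X < (X / d ^ 2 + 1) * d ^ 2 := by
      have := Nat.lt_div_mul_add (a := X) (b := d ^ 2) (by positivity)
      calc X < X / d ^ 2 * d ^ 2 + d ^ 2 := this
        _ = _ := by ring
    exact_mod_cast h3
  have h3 : 1 / (d : ℝ) ^ 2 * X = X / (d : ℝ) ^ 2 := by ring
  have h4 : (0 : ℝ) ≤ ((X / d ^ 2 : ℕ) : ℝ) := Nat.cast_nonneg _
  have h5 : |((X / d ^ 2 : ℕ) : ℝ) - 1 / (d : ℝ) ^ 2 * X| ≤ 1 := by
    rw [h3, abs_le]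
    constructor <;> linarith
  have h6 : |((X / d ^ 2 : ℕ) : ℝ) - 1 / (d : ℝ) ^ 2 * X| ≤ X * ((d : ℝ) ^ 2)⁻¹ := by
    rw [h3, abs_le]
    have : (X : ℝ) * ((d : ℝ) ^ 2)⁻¹ = X / (d : ℝ) ^ 2 := (div_eq_mul_inv _ _).symm
    rw [this]
    constructor <;> linarith
  have h7 := abs_mu_le d
  have h8 := abs_nonneg (((X / d ^ 2 : ℕ) : ℝ) - 1 / (d : ℝ) ^ 2 * X)
  constructor
  · exact (mul_le_of_le_one_left h8 h7).trans h5
  · exact (mul_le_of_le_one_left h8 h7).trans h6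

lemma sf_err (X D : ℕ) (hD : 1 ≤ D) : |(sf 1 0 X : ℝ) - 6 / Real.pi ^ 2 * X| ≤ (D : ℝ) + X / D := by
  have h1 : HasSum (fun d : ℕ => mu d * (1 / (d : ℝ) ^ 2 * X)) (6 / Real.pi ^ 2 * X) := by
    have h2 := (mu_sum (N := 1) one_pos).mul_right (X : ℝ)
    have h3 : ep 1 = 1 := by simp [ep]
    rw [h3, div_one] at h2
    have h4 : (fun d : ℕ => mu d * (1 / (d : ℝ) ^ 2 * X)) =
        fun i : ℕ => (mu i * if i.Coprime 1 then 1 / (i : ℝ) ^ 2 else 0) * (X : ℝ) := by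
      funext d
      rw [if_pos (Nat.coprime_one_right d)]
      ring
    rw [h4]
    exact h2
  have h2 := h1.tendsto_sum_nat
  have h3 : ∀ Y : ℕ, X < Y → ∑ d ∈ range Y, mu d * (cd 1 0 (d ^ 2) X : ℝ) = sf 1 0 X := by
    intro Y hY
    rw [count_eq, tsum_eq_sum]
    intro d hd
    rw [mem_range, not_lt] at hd
    rw [cd_val, Nat.div_eq_of_lt]
    · simp
    · nlinarith
  have h4 : Tendsto (fun Y : ℕ => |(sf 1 0 X : ℝ) - ∑ d ∈ range Y, mu d * (1 / (d : ℝ) ^ 2 * X)|) atTop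
      (𝓝 |(sf 1 0 X : ℝ) - 6 / Real.pi ^ 2 * X|) := (tendsto_const_nhds.sub h2).abs
  refine le_of_tendsto h4 ?_
  filter_upwards [eventually_gt_atTop (X + D + 1)] with Y hY
  rw [← h3 Y (by omega), ← sum_sub_distrib]
  have h5 : range Y = insert 0 (Icc 1 D ∪ Ioc D (Y - 1)) := by
    ext d
    simp only [mem_range, mem_insert, mem_union, mem_Icc, mem_Ioc]
    omega
  have h6 : (0 : ℕ) ∉ Icc 1 D ∪ Ioc D (Y - 1) := by
    simp only [mem_union, mem_Icc, mem_Ioc]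
    omega
  have h7 : Disjoint (Icc 1 D) (Ioc D (Y - 1)) := by
    rw [disjoint_left]
    intro a ha hb
    rw [mem_Icc] at ha
    rw [mem_Ioc] at hb
    omega
  rw [h5, sum_insert h6, sum_union h7, mu_zero]
  have h8 : |∑ d ∈ Icc 1 D, (mu d * (cd 1 0 (d ^ 2) X : ℝ) - mu d * (1 / (d : ℝ) ^ 2 * X))| ≤ (D : ℝ) := by
    refine (abs_sum_le_sum_abs _ _).trans ?_
    calc _ ≤ ∑ d ∈ Icc 1 D, (1 : ℝ) := sum_le_sum fun d hd => (term_le X d (mem_Icc.1 hd).1).1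
      _ = D := by rw [sum_const, Nat.card_Icc, Nat.add_sub_cancel, nsmul_eq_mul, mul_one]
  have h9 : |∑ d ∈ Ioc D (Y - 1), (mu d * (cd 1 0 (d ^ 2) X : ℝ) - mu d * (1 / (d : ℝ) ^ 2 * X))| ≤ (X : ℝ) / D := by
    refine (abs_sum_le_sum_abs _ _).trans ?_
    calc _ ≤ ∑ d ∈ Ioc D (Y - 1), (X : ℝ) * ((d : ℝ) ^ 2)⁻¹ :=
          sum_le_sum fun d hd => (term_le X d (by have := (mem_Ioc.1 hd).1; omega)).2
      _ = X * ∑ d ∈ Ioc D (Y - 1), ((d : ℝ) ^ 2)⁻¹ := by rw [mul_sum]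
      _ ≤ X * ((D : ℝ)⁻¹ - ((Y - 1 : ℕ) : ℝ)⁻¹) := by
        apply mul_le_mul_of_nonneg_left _ (Nat.cast_nonneg _)
        exact sum_Ioc_inv_sq_le_sub (by omega) (by omega)
      _ ≤ X * (D : ℝ)⁻¹ := by
        apply mul_le_mul_of_nonneg_left _ (Nat.cast_nonneg _)
        have : (0 : ℝ) ≤ ((Y - 1 : ℕ) : ℝ)⁻¹ := by positivity
        linarith
      _ = X / D := (div_eq_mul_inv _ _).symm
  have h10 := abs_le.1 h8
  have h11 := abs_le.1 h9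
  rw [abs_le]
  constructor <;> linarith

lemma CG_mob (N : ℕ) : CG mob N 0 = sf 1 0 N := by
  classical
  unfold CG sf
  rw [card_filter]
  push_cast
  refine sum_congr rfl fun n _ => ?_
  rw [add_zero]
  unfold mob
  by_cases h : Squarefree n
  · rw [if_pos ⟨h, Nat.mod_one n⟩]
    have h1 := ArithmeticFunction.moebius_sq_eq_one_of_squarefree h
    have h2 : (((ArithmeticFunction.moebius n : ℤ) : ℝ)) ^ 2 = 1 := by exact_mod_cast h1
    rw [← pow_two, h2]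
  · rw [if_neg (fun hh => h hh.1), ArithmeticFunction.moebius_eq_zero_of_not_squarefree h]
    simp

lemma CG_mob_err (N : ℕ) (hN : 1 ≤ N) : |CG mob N 0 - 6 / Real.pi ^ 2 * N| ≤ 3 * √(N : ℝ) := by
  have hN1 : (1 : ℝ) ≤ N := by exact_mod_cast hN
  have hs1 : 1 ≤ √(N : ℝ) := Real.one_le_sqrt.2 hN1
  have hs0 : 0 < √(N : ℝ) := by linarith
  have hss := Real.mul_self_sqrt (by linarith : (0 : ℝ) ≤ N)
  obtain ⟨D, hD⟩ : ∃ D, D = ⌈√(N : ℝ)⌉₊ := ⟨_, rfl⟩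
  have h1 : √(N : ℝ) ≤ D := by rw [hD]; exact Nat.le_ceil _
  have h2 : (D : ℝ) ≤ √(N : ℝ) + 1 := by rw [hD]; exact (Nat.ceil_lt_add_one hs0.le).le
  have h3 : 1 ≤ D := by
    have : (0 : ℝ) < D := by linarith
    exact_mod_cast this
  rw [CG_mob]
  refine (sf_err N D h3).trans ?_
  have h4 : (N : ℝ) / D ≤ √(N : ℝ) := by
    rw [div_le_iff₀ (by linarith)]
    nlinarith
  linarith

end Pool.Agent.Run7.h364.MK.MV
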