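import Pool.Agent.Run7.h364.MK.Pc
import Pool.Agent.Run7.h364.MK.Psi

/-!
# The variance of the primes in windows of a progression, from the pair correlations
-/

set_option autoImplicit false

namespace Pool.Agent.Run7.h364.MK.VR

open Finset
open Pool.Agent.H373R2.T7 (ev_L' ev_log')

lemma prod_low (S : Finset ℕ) (h : ∀ p ∈ S, 2 ≤ p) : 1 / ((S.card : ℝ) + 1) ≤ ∏ p ∈ S, (1 - 1 / (p : ℝ)) := by
  induction S using Finset.induction_on_max with
  | empty => simp
  | insert a s ha ih =>
    have hns : a ∉ s := fun hh => lt_irrefl a (ha a hh)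
    rw [prod_insert hns, card_insert_of_notMem hns]
    have ih' := ih fun p hp => h p (mem_insert_of_mem hp)
    have hcard : s.card + 2 ≤ a := by
      have h2 := h a (mem_insert_self _ _)
      have hsub : s ⊆ Ico 2 a := fun p hp => mem_Ico.2 ⟨h p (mem_insert_of_mem hp), ha p hp⟩
      have := card_le_card hsub
      rw [Nat.card_Ico] at this
      omega
    have hcr : (s.card : ℝ) + 2 ≤ a := by exact_mod_cast hcard
    have hs0 : (0 : ℝ) ≤ s.card := Nat.cast_nonneg _
    have h1 : 1 - 1 / ((s.card : ℝ) + 2) ≤ 1 - 1 / (a : ℝ) := by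
      have := one_div_le_one_div_of_le (show (0 : ℝ) < (s.card : ℝ) + 2 by positivity) hcr
      linarith
    have h2 : 1 / (((s.card + 1 : ℕ) : ℝ) + 1) = (1 - 1 / ((s.card : ℝ) + 2)) * (1 / ((s.card : ℝ) + 1)) := by
      push_cast
      field_simp
      ring
    rw [h2]
    have h3 : 0 ≤ 1 - 1 / ((s.card : ℝ) + 2) := by
      rw [sub_nonneg, div_le_one (by positivity)]
      linarith
    exact mul_le_mul h1 ih' (by positivity) (h3.trans h1)

lemma om_le (d : ℕ) (hd : 1 ≤ d) : (d.primeFactors.card : ℝ) ≤ 2 * Real.log d := by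
  have h1 := big_card d 0 hd
  have e : d.primeFactors.filter (fun p => 0 < p) = d.primeFactors := by
    rw [filter_true_of_mem]
    intro p hp
    exact (Nat.prime_of_mem_primeFactors hp).pos
  rw [e] at h1
  have hl2 : (1 : ℝ) / 2 < Real.log 2 := by
    have := Real.log_two_gt_d9
    linarith
  have h0 : (0 : ℝ) ≤ (d.primeFactors.card : ℝ) := Nat.cast_nonneg _
  nlinarith

/-- the local mean -/
lemma dphi_le (d : ℕ) (hd : 1 ≤ d) : (d : ℝ) / Nat.totient d ≤ 2 * Real.log d + 1 := by
  have hd0 : (0 : ℝ) < d := by exact_mod_cast hd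
  have hphi : (0 : ℝ) < Nat.totient d := by exact_mod_cast Nat.totient_pos.2 hd
  have h1 := prod_low d.primeFactors fun p hp => (Nat.prime_of_mem_primeFactors hp).two_le
  have h2 : (Nat.totient d : ℝ) = d * ∏ p ∈ d.primeFactors, (1 - 1 / (p : ℝ)) := by
    have h3 := Nat.totient_eq_mul_prod_factors d
    have h4 : ((Nat.totient d : ℚ) : ℝ) = ((d * ∏ p ∈ d.primeFactors, (1 - (p : ℚ)⁻¹) : ℚ) : ℝ) := by rw [h3]
    push_cast at h4
    rw [h4]
    congr 1
    refine prod_congr rfl fun p _ => ?_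
    rw [one_div]
  have hom := om_le d hd
  have hc0 : (0 : ℝ) ≤ (d.primeFactors.card : ℝ) := Nat.cast_nonneg _
  rw [div_le_iff₀ hphi, h2]
  have h5 : 1 ≤ ((d.primeFactors.card : ℝ) + 1) * ∏ p ∈ d.primeFactors, (1 - 1 / (p : ℝ)) := by
    calc (1 : ℝ) = ((d.primeFactors.card : ℝ) + 1) * (1 / ((d.primeFactors.card : ℝ) + 1)) := by field_simp
      _ ≤ _ := mul_le_mul_of_nonneg_left h1 (by positivity)
  have hP : 0 ≤ ∏ p ∈ d.primeFactors, (1 - 1 / (p : ℝ)) := le_trans (by positivity) h1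
  calc (d : ℝ) = d * 1 := (mul_one _).symm
    _ ≤ d * (((d.primeFactors.card : ℝ) + 1) * ∏ p ∈ d.primeFactors, (1 - 1 / (p : ℝ))) :=
        mul_le_mul_of_nonneg_left h5 hd0.le
    _ ≤ d * ((2 * Real.log d + 1) * ∏ p ∈ d.primeFactors, (1 - 1 / (p : ℝ))) := by
        apply mul_le_mul_of_nonneg_left _ hd0.le
        apply mul_le_mul_of_nonneg_right _ hP
        linarith
    _ = _ := by ring

/-- the integers coprime to `d` -/
lemma cop_count (d N : ℕ) (hd : 1 ≤ d) :
    |(((Icc 1 N).filter (fun n : ℕ => n.Coprime d)).card : ℝ) - N * ((Nat.totient d : ℝ) / d)| ≤ d := by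
  have hd0 : (0 : ℝ) < d := by exact_mod_cast hd
  have hphi : (Nat.totient d : ℝ) ≤ d := by exact_mod_cast Nat.totient_le d
  have hphi0 : (0 : ℝ) ≤ Nat.totient d := Nat.cast_nonneg _
  -- full periods
  have hper : ∀ Q : ℕ, ((Ico 1 (1 + Q * d)).filter (fun n : ℕ => n.Coprime d)).card = Q * Nat.totient d := by
    intro Q
    induction Q with
    | zero => simp
    | succ Q ih =>
      have e : Ico 1 (1 + (Q + 1) * d) = Ico 1 (1 + Q * d) ∪ Ico (1 + Q * d) (1 + Q * d + d) := by
        rw [Ico_union_Ico_eq_Ico (by omega) (by omega)]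
        congr 1
        ring
      rw [e, filter_union, card_union_of_disjoint, ih]
      · have h1 := Nat.filter_coprime_Ico_eq_totient d (1 + Q * d)
        have h2 : ((Ico (1 + Q * d) (1 + Q * d + d)).filter (fun n : ℕ => n.Coprime d)) =
            ((Ico (1 + Q * d) (1 + Q * d + d)).filter (fun n : ℕ => d.Coprime n)) := by
          apply filter_congr
          intro n _
          exact Nat.coprime_comm
        rw [h2, h1]
        ring
      · apply disjoint_filter_filter
        rw [disjoint_left]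
        intro n hn hn2
        rw [mem_Ico] at hn hn2
        omega
  have hdm := Nat.div_add_mod N d
  have hml := Nat.mod_lt N hd
  obtain ⟨Q, hQ⟩ : ∃ Q, Q = N / d := ⟨_, rfl⟩
  have hQ1 : Q * d ≤ N := by rw [hQ]; exact Nat.div_mul_le_self N d
  have hQ2 : N < (Q + 1) * d := by
    rw [hQ, add_mul, one_mul, mul_comm]
    omega
  have h1 : ((Ico 1 (1 + Q * d)).filter (fun n : ℕ => n.Coprime d)).card ≤ ((Icc 1 N).filter (fun n : ℕ => n.Coprime d)).card := by
    apply card_le_card
    apply filter_subset_filter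
    intro n hn
    rw [mem_Ico] at hn
    rw [mem_Icc]
    omega
  have h2 : ((Icc 1 N).filter (fun n : ℕ => n.Coprime d)).card ≤ ((Ico 1 (1 + (Q + 1) * d)).filter (fun n : ℕ => n.Coprime d)).card := by
    apply card_le_card
    apply filter_subset_filter
    intro n hn
    rw [mem_Icc] at hn
    rw [mem_Ico]
    omega
  rw [hper] at h1 h2
  have r1 : (Q : ℝ) * Nat.totient d ≤ (((Icc 1 N).filter (fun n : ℕ => n.Coprime d)).card : ℝ) := by exact_mod_cast h1
  have r2 : (((Icc 1 N).filter (fun n : ℕ => n.Coprime d)).card : ℝ) ≤ ((Q : ℝ) + 1) * Nat.totient d := by exact_mod_cast h2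
  have r3 : (Q : ℝ) * d ≤ N := by exact_mod_cast hQ1
  have r4 : (N : ℝ) ≤ ((Q : ℝ) + 1) * d := by exact_mod_cast hQ2.le
  have s1 : (Q : ℝ) * Nat.totient d ≤ N * ((Nat.totient d : ℝ) / d) := by
    calc (Q : ℝ) * Nat.totient d = (Q * d) * ((Nat.totient d : ℝ) / d) := by field_simp
      _ ≤ _ := mul_le_mul_of_nonneg_right r3 (by positivity)
  have s2 : N * ((Nat.totient d : ℝ) / d) ≤ ((Q : ℝ) + 1) * Nat.totient d := by
    calc N * ((Nat.totient d : ℝ) / d) ≤ (((Q : ℝ) + 1) * d) * ((Nat.totient d : ℝ) / d) :=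
          mul_le_mul_of_nonneg_right r4 (by positivity)
      _ = _ := by field_simp
  rw [abs_le]
  constructor <;> linarith

/-- prime powers of the primes dividing `d` -/
lemma noncop_sum (d M : ℕ) (hd : 1 ≤ d) (hM : 1 ≤ M) :
    ∑ r ∈ (Icc 1 M).filter (fun r : ℕ => ¬ r.Coprime d), ArithmeticFunction.vonMangoldt r ≤
      (2 * Real.log d) * ((2 * Real.log M + 1) * Real.log M) := by
  classical
  have hlM : 0 ≤ Real.log M := Real.log_natCast_nonneg _
  obtain ⟨S, hS⟩ : ∃ S : Finset ℕ, S = (d.primeFactors ×ˢ range (Nat.log 2 M + 1)).image (fun g : ℕ × ℕ => g.1 ^ g.2) := ⟨_, rfl⟩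
  have h1 : ∀ r ∈ (Icc 1 M).filter (fun r : ℕ => ¬ r.Coprime d), ArithmeticFunction.vonMangoldt r ≤
      if r ∈ S then Real.log M else 0 := by
    intro r hr
    rw [mem_filter, mem_Icc] at hr
    by_cases hpp : IsPrimePow r
    · obtain ⟨p, k, hp, hk, hpk⟩ := hpp
      have hp' : p.Prime := hp.nat_prime
      have hmem : r ∈ S := by
        rw [hS, mem_image]
        refine ⟨(p, k), ?_, hpk⟩
        rw [mem_product, Nat.mem_primeFactors, mem_range]
        refine ⟨⟨hp', ?_, by omega⟩, ?_⟩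
        · by_contra hnd
          apply hr.2
          rw [← hpk]
          exact Nat.Coprime.pow_left k ((Nat.Prime.coprime_iff_not_dvd hp').2 hnd)
        · have h2 : 2 ^ k ≤ M := by
            calc 2 ^ k ≤ p ^ k := Nat.pow_le_pow_left hp'.two_le k
              _ = r := hpk
              _ ≤ M := hr.1.2
          have := Nat.le_log_of_pow_le (by norm_num) h2
          show k < Nat.log 2 M + 1
          omega
      rw [if_pos hmem]
      exact ArithmeticFunction.vonMangoldt_le_log.trans (Real.log_le_log (by exact_mod_cast hr.1.1) (by exact_mod_cast hr.1.2))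
    · rw [ArithmeticFunction.vonMangoldt_eq_zero_iff.2 hpp]
      split_ifs
      · exact hlM
      · exact le_rfl
  refine (sum_le_sum h1).trans ?_
  rw [← sum_filter, sum_const, nsmul_eq_mul]
  have h2 : ((((Icc 1 M).filter (fun r : ℕ => ¬ r.Coprime d)).filter (fun r => r ∈ S)).card : ℝ) ≤
      (d.primeFactors.card : ℝ) * ((Nat.log 2 M : ℝ) + 1) := by
    have h3 : (((Icc 1 M).filter (fun r : ℕ => ¬ r.Coprime d)).filter (fun r => r ∈ S)).card ≤ S.card := by
      apply card_le_card
      intro r hr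
      exact (mem_filter.1 hr).2
    have h4 : S.card ≤ d.primeFactors.card * (Nat.log 2 M + 1) := by
      rw [hS]
      refine card_image_le.trans ?_
      rw [card_product, card_range]
    exact_mod_cast h3.trans h4
  have h5 : (Nat.log 2 M : ℝ) ≤ 2 * Real.log M := by
    have h6 : 2 ^ Nat.log 2 M ≤ M := Nat.pow_log_le_self 2 (by omega)
    have h7 : ((2 : ℝ) ^ Nat.log 2 M) ≤ M := by exact_mod_cast h6
    have h8 : (Nat.log 2 M : ℝ) * Real.log 2 ≤ Real.log M := by
      rw [← Real.log_pow]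
      exact Real.log_le_log (by positivity) h7
    have hl2 : (1 : ℝ) / 2 < Real.log 2 := by
      have := Real.log_two_gt_d9
      linarith
    have h9 : (0 : ℝ) ≤ Nat.log 2 M := Nat.cast_nonneg _
    nlinarith
  have h10 := om_le d hd
  have hld : 0 ≤ Real.log d := Real.log_natCast_nonneg _
  calc _ ≤ ((d.primeFactors.card : ℝ) * ((Nat.log 2 M : ℝ) + 1)) * Real.log M := mul_le_mul_of_nonneg_right h2 hlM
    _ ≤ ((2 * Real.log d) * (2 * Real.log M + 1)) * Real.log M := by gcongr
    _ = _ := by ring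

/-- shifting a sum -/
lemma shift1 (N k : ℕ) (F : ℕ → ℝ) (K : ℝ) (hk : k ≤ N) (h0 : ∀ n, 0 ≤ F n) (hF : ∀ n, 1 ≤ n → n ≤ 2 * N → F n ≤ K) :
    |∑ n ∈ Icc 1 N, F (n + k) - ∑ n ∈ Icc 1 N, F n| ≤ k * K := by
  have e1 : ∑ n ∈ Icc 1 N, F (n + k) = ∑ n ∈ Icc (k + 1) (N + k), F n := by
    apply sum_bij (fun n _ => n + k)
    · intro n hn
      rw [mem_Icc] at hn ⊢
      omega
    · intro a _ b _ hab
      omega
    · intro m hm
      rw [mem_Icc] at hm
      exact ⟨m - k, by rw [mem_Icc]; omega, by omega⟩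
    · intro n _
      rfl
  have e2 : ∑ n ∈ Icc (k + 1) (N + k), F n = ∑ n ∈ Icc (k + 1) N, F n + ∑ n ∈ Icc (N + 1) (N + k), F n := by
    rw [← sum_union]
    · refine sum_congr ?_ fun _ _ => rfl
      ext n
      simp only [mem_union, mem_Icc]
      omega
    · rw [disjoint_left]
      intro n hn hn2
      rw [mem_Icc] at hn hn2
      omega
  have e3 : ∑ n ∈ Icc 1 N, F n = ∑ n ∈ Icc 1 k, F n + ∑ n ∈ Icc (k + 1) N, F n := by
    rw [← sum_union]
    · refine sum_congr ?_ fun _ _ => rfl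
      ext n
      simp only [mem_union, mem_Icc]
      omega
    · rw [disjoint_left]
      intro n hn hn2
      rw [mem_Icc] at hn hn2
      omega
  have b1 : ∑ n ∈ Icc (N + 1) (N + k), F n ≤ k * K := by
    calc ∑ n ∈ Icc (N + 1) (N + k), F n ≤ ∑ _n ∈ Icc (N + 1) (N + k), K := by
          apply sum_le_sum
          intro n hn
          rw [mem_Icc] at hn
          exact hF n (by omega) (by omega)
      _ = k * K := by
          rw [sum_const, Nat.card_Icc, nsmul_eq_mul]
          congr 2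
          omega
  have b2 : ∑ n ∈ Icc 1 k, F n ≤ k * K := by
    calc ∑ n ∈ Icc 1 k, F n ≤ ∑ _n ∈ Icc 1 k, K := by
          apply sum_le_sum
          intro n hn
          rw [mem_Icc] at hn
          exact hF n (by omega) (by omega)
      _ = k * K := by
          rw [sum_const, Nat.card_Icc, nsmul_eq_mul]
          congr 2
  have c1 : 0 ≤ ∑ n ∈ Icc (N + 1) (N + k), F n := sum_nonneg fun n _ => h0 n
  have c2 : 0 ≤ ∑ n ∈ Icc 1 k, F n := sum_nonneg fun n _ => h0 n
  rw [e1, e2, e3, abs_le]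
  constructor <;> linarith

/-- sums over differences -/
lemma diff_sum (m : ℕ) (f : ℕ → ℝ) : ∑ i ∈ Icc 1 m, ∑ j ∈ Icc 1 m, f ((i - j) + (j - i)) =
    m * f 0 + 2 * ∑ κ ∈ Ico 1 m, ((m : ℝ) - κ) * f κ := by
  induction m with
  | zero => simp
  | succ m ih =>
    have h1 : ∑ i ∈ Icc 1 (m + 1), ∑ j ∈ Icc 1 (m + 1), f ((i - j) + (j - i)) =
        (∑ i ∈ Icc 1 m, ∑ j ∈ Icc 1 m, f ((i - j) + (j - i))) + 2 * ∑ κ ∈ Ico 1 (m + 1), f κ + f 0 := by
      rw [sum_Icc_succ_top (by omega)]
      have h2 : ∀ i ∈ Icc 1 m, ∑ j ∈ Icc 1 (m + 1), f ((i - j) + (j - i)) =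
          ∑ j ∈ Icc 1 m, f ((i - j) + (j - i)) + f (m + 1 - i) := by
        intro i hi
        rw [mem_Icc] at hi
        rw [sum_Icc_succ_top (by omega)]
        congr 2
        omega
      rw [sum_congr rfl h2, sum_add_distrib, sum_Icc_succ_top (by omega)]
      have h3 : ∑ j ∈ Icc 1 m, f (m + 1 - j + (j - (m + 1))) = ∑ j ∈ Icc 1 m, f (m + 1 - j) := by
        refine sum_congr rfl fun j hj => ?_
        rw [mem_Icc] at hj
        congr 1
        omega
      have h4 : ∑ j ∈ Icc 1 m, f (m + 1 - j) = ∑ κ ∈ Ico 1 (m + 1), f κ := by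
        apply sum_bij (fun j _ => m + 1 - j)
        · intro j hj
          rw [mem_Icc] at hj
          rw [mem_Ico]
          omega
        · intro a ha b hb hab
          rw [mem_Icc] at ha hb
          omega
        · intro κ hκ
          rw [mem_Ico] at hκ
          exact ⟨m + 1 - κ, by rw [mem_Icc]; omega, by omega⟩
        · intro j _
          rfl
      have h5 : m + 1 - (m + 1) + (m + 1 - (m + 1)) = 0 := by omega
      rw [h3, h4, h5]
      ring
    rw [h1, ih]
    rcases Nat.eq_zero_or_pos m with rfl | hm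
    · simp
    rw [sum_Ico_succ_top hm, sum_Ico_succ_top hm]
    have h6 : ∑ κ ∈ Ico 1 m, (((m + 1 : ℕ) : ℝ) - κ) * f κ = ∑ κ ∈ Ico 1 m, ((m : ℝ) - κ) * f κ + ∑ κ ∈ Ico 1 m, f κ := by
      rw [← sum_add_distrib]
      refine sum_congr rfl fun κ _ => ?_
      push_cast
      ring
    rw [h6]
    push_cast
    ring

end Pool.Agent.Run7.h364.MK.VR
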