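import Pool.Agent.Run7.h364.MK.Var

/-!
# The variance of the primes in windows of a progression, from the pair correlations: the formula
-/

set_option autoImplicit false

namespace Pool.Agent.Run7.h364.MK.VR

open Finset
open Pool.Agent.H373R2.T7 (ev_L' ev_log')

/-- the weighted number of primes among `n + d, n + 2 d, …, n + m d` -/
noncomputable def Wd (d m n : ℕ) : ℝ := ∑ j ∈ Icc 1 m, ArithmeticFunction.vonMangoldt (n + j * d)

/-- its expected value -/
noncomputable def mean (d m n : ℕ) : ℝ := if n.Coprime d then (m : ℝ) * (d / Nat.totient d) else 0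

/-- the main term of the variance -/
noncomputable def mainV (N d m : ℕ) : ℝ :=
  N * (m * (Real.log N - 1) + 2 * ∑ κ ∈ Ico 1 m, ((m : ℝ) - κ) * SS (κ * d) - (m : ℝ) ^ 2 * (d / Nat.totient d))

lemma lam_le2 (N n : ℕ) (L : ℝ) (hL : L = Real.log N) (hL4 : 4 ≤ L) (hn1 : 1 ≤ n) (hn : n ≤ 3 * N) :
    ArithmeticFunction.vonMangoldt n ≤ 2 * L := by
  have hN1 : 1 ≤ N := by
    by_contra hcon
    have : N = 0 := by omega
    rw [hL, this] at hL4
    norm_num at hL4
  have hN0 : (0 : ℝ) < N := by exact_mod_cast hN1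
  refine ArithmeticFunction.vonMangoldt_le_log.trans ?_
  calc Real.log n ≤ Real.log (3 * N) := Real.log_le_log (by exact_mod_cast hn1) (by exact_mod_cast hn)
    _ = Real.log 3 + L := by rw [Real.log_mul (by norm_num) hN0.ne', hL]
    _ ≤ 2 * L := by
      have := Real.log_le_sub_one_of_pos (show (0 : ℝ) < 3 by norm_num)
      linarith

/-- the correlations of two members of the window -/
lemma corr_win (N d m : ℕ) (L : ℝ) (hL : L = Real.log N) (hL4 : 4 ≤ L) (hmd : m * d ≤ N) (i j : ℕ) (hi : i ∈ Icc 1 m)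
    (hj : j ∈ Icc 1 m) :
    |∑ n ∈ Icc 1 N, ArithmeticFunction.vonMangoldt (n + i * d) * ArithmeticFunction.vonMangoldt (n + j * d) -
      LL N (((i - j) + (j - i)) * d)| ≤ (m : ℝ) * d * (4 * L ^ 2) := by
  rw [mem_Icc] at hi hj
  have hL0 : 0 < L := by linarith
  have aux : ∀ i κ : ℕ, 1 ≤ i → i + κ ≤ m →
      |∑ n ∈ Icc 1 N, ArithmeticFunction.vonMangoldt (n + i * d) * ArithmeticFunction.vonMangoldt (n + (i + κ) * d) -
      LL N (κ * d)| ≤ (m : ℝ) * d * (4 * L ^ 2) := by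
    intro i κ hi1 hiκ
    have hid : i * d ≤ m * d := Nat.mul_le_mul_right d (by omega)
    have hκd : κ * d ≤ m * d := Nat.mul_le_mul_right d (by omega)
    have h1 := shift1 N (i * d) (fun n => ArithmeticFunction.vonMangoldt n * ArithmeticFunction.vonMangoldt (n + κ * d)) (4 * L ^ 2)
      (by omega) (fun n => mul_nonneg ArithmeticFunction.vonMangoldt_nonneg ArithmeticFunction.vonMangoldt_nonneg) (by
        intro n hn1 hn2
        have h2 := lam_le2 N n L hL hL4 hn1 (by omega)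
        have h3 := lam_le2 N (n + κ * d) L hL hL4 (by omega) (by omega)
        calc ArithmeticFunction.vonMangoldt n * ArithmeticFunction.vonMangoldt (n + κ * d) ≤ (2 * L) * (2 * L) :=
              mul_le_mul h2 h3 ArithmeticFunction.vonMangoldt_nonneg (by positivity)
          _ = 4 * L ^ 2 := by ring)
    have e1 : ∀ n : ℕ, n + i * d + κ * d = n + (i + κ) * d := by intro n; ring
    simp only [e1] at h1
    unfold LL
    refine h1.trans ?_
    apply mul_le_mul_of_nonneg_right _ (by positivity)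
    exact_mod_cast hid
  rcases le_total i j with h | h
  · have h1 := aux i (j - i) hi.1 (by omega)
    have e1 : i + (j - i) = j := by omega
    have e2 : i - j + (j - i) = j - i := by omega
    rw [e1] at h1
    rw [e2]
    exact h1
  · have h1 := aux j (i - j) hj.1 (by omega)
    have e1 : j + (i - j) = i := by omega
    have e2 : i - j + (j - i) = i - j := by omega
    rw [e1] at h1
    rw [e2]
    refine le_trans (le_of_eq ?_) h1
    congr 2
    refine sum_congr rfl fun n _ => mul_comm _ _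

theorem second_moment (N d m : ℕ) (L : ℝ) (hL : L = Real.log N) (hL4 : 4 ≤ L) (hmd : m * d ≤ N)
    (E1 E2 : ℝ) (hE2 : 0 ≤ E2)
    (h1 : |∑ n ∈ Icc 1 N, ArithmeticFunction.vonMangoldt n * ArithmeticFunction.vonMangoldt n - N * (L - 1)| ≤ E1)
    (h2 : ∀ κ ∈ Ico 1 m, |LL N (κ * d) - N * SS (κ * d)| ≤ E2) :
    |∑ n ∈ Icc 1 N, Wd d m n ^ 2 - N * (m * (L - 1) + 2 * ∑ κ ∈ Ico 1 m, ((m : ℝ) - κ) * SS (κ * d))| ≤
      (m : ℝ) ^ 2 * ((m : ℝ) * d * (4 * L ^ 2)) + m * E1 + 2 * ((m : ℝ) ^ 2 * E2) := by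
  have hL0 : 0 < L := by linarith
  have hm0 : (0 : ℝ) ≤ m := Nat.cast_nonneg _
  have e1 : ∑ n ∈ Icc 1 N, Wd d m n ^ 2 = ∑ i ∈ Icc 1 m, ∑ j ∈ Icc 1 m, ∑ n ∈ Icc 1 N,
      ArithmeticFunction.vonMangoldt (n + i * d) * ArithmeticFunction.vonMangoldt (n + j * d) := by
    have : ∀ n ∈ Icc 1 N, Wd d m n ^ 2 = ∑ i ∈ Icc 1 m, ∑ j ∈ Icc 1 m,
        ArithmeticFunction.vonMangoldt (n + i * d) * ArithmeticFunction.vonMangoldt (n + j * d) := by
      intro n _
      unfold Wd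
      rw [pow_two, sum_mul_sum]
    rw [sum_congr rfl this, sum_comm]
    refine sum_congr rfl fun i _ => ?_
    rw [sum_comm]
  have e2 := diff_sum m (fun κ => LL N (κ * d))
  have e3 : LL N (0 * d) = ∑ n ∈ Icc 1 N, ArithmeticFunction.vonMangoldt n * ArithmeticFunction.vonMangoldt n := by
    unfold LL
    simp
  rw [e3] at e2
  have b1 : |∑ n ∈ Icc 1 N, Wd d m n ^ 2 - ∑ i ∈ Icc 1 m, ∑ j ∈ Icc 1 m, LL N (((i - j) + (j - i)) * d)| ≤
      (m : ℝ) ^ 2 * ((m : ℝ) * d * (4 * L ^ 2)) := by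
    rw [e1, ← sum_sub_distrib]
    refine (abs_sum_le_sum_abs _ _).trans ?_
    have h3 : ∀ i ∈ Icc 1 m, |∑ j ∈ Icc 1 m, ∑ n ∈ Icc 1 N,
      ArithmeticFunction.vonMangoldt (n + i * d) * ArithmeticFunction.vonMangoldt (n + j * d) -
      ∑ j ∈ Icc 1 m, LL N (((i - j) + (j - i)) * d)| ≤ m * ((m : ℝ) * d * (4 * L ^ 2)) := by
      intro i hi
      rw [← sum_sub_distrib]
      refine (abs_sum_le_sum_abs _ _).trans ?_
      calc _ ≤ ∑ _j ∈ Icc 1 m, (m : ℝ) * d * (4 * L ^ 2) :=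
            sum_le_sum fun j hj => corr_win N d m L hL hL4 hmd i j hi hj
        _ = _ := by rw [sum_const, Nat.card_Icc, nsmul_eq_mul]; simp
    calc _ ≤ ∑ _i ∈ Icc 1 m, (m : ℝ) * ((m : ℝ) * d * (4 * L ^ 2)) := sum_le_sum h3
      _ = _ := by rw [sum_const, Nat.card_Icc, nsmul_eq_mul]; simp; ring
  have b2 : |∑ i ∈ Icc 1 m, ∑ j ∈ Icc 1 m, LL N (((i - j) + (j - i)) * d) -
      N * (m * (L - 1) + 2 * ∑ κ ∈ Ico 1 m, ((m : ℝ) - κ) * SS (κ * d))| ≤ m * E1 + 2 * ((m : ℝ) ^ 2 * E2) := by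
    rw [e2]
    have e4 : (m : ℝ) * ∑ n ∈ Icc 1 N, ArithmeticFunction.vonMangoldt n * ArithmeticFunction.vonMangoldt n +
        2 * ∑ κ ∈ Ico 1 m, ((m : ℝ) - κ) * LL N (κ * d) -
        N * (m * (L - 1) + 2 * ∑ κ ∈ Ico 1 m, ((m : ℝ) - κ) * SS (κ * d)) =
        m * (∑ n ∈ Icc 1 N, ArithmeticFunction.vonMangoldt n * ArithmeticFunction.vonMangoldt n - N * (L - 1)) +
        2 * ∑ κ ∈ Ico 1 m, ((m : ℝ) - κ) * (LL N (κ * d) - N * SS (κ * d)) := by
      have : ∑ κ ∈ Ico 1 m, ((m : ℝ) - κ) * (LL N (κ * d) - N * SS (κ * d)) =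
          ∑ κ ∈ Ico 1 m, ((m : ℝ) - κ) * LL N (κ * d) - N * ∑ κ ∈ Ico 1 m, ((m : ℝ) - κ) * SS (κ * d) := by
        rw [mul_sum, ← sum_sub_distrib]
        refine sum_congr rfl fun κ _ => ?_
        ring
      rw [this]
      ring
    rw [e4]
    refine (abs_add_le _ _).trans (add_le_add ?_ ?_)
    · rw [abs_mul, abs_of_nonneg hm0]
      exact mul_le_mul_of_nonneg_left h1 hm0
    · rw [abs_mul, abs_of_pos (by norm_num : (0 : ℝ) < 2)]
      apply mul_le_mul_of_nonneg_left _ (by norm_num)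
      refine (abs_sum_le_sum_abs _ _).trans ?_
      have h4 : ∀ κ ∈ Ico 1 m, |((m : ℝ) - κ) * (LL N (κ * d) - N * SS (κ * d))| ≤ m * E2 := by
        intro κ hκ
        have h5 := h2 κ hκ
        rw [mem_Ico] at hκ
        have h6 : (κ : ℝ) ≤ m := by exact_mod_cast hκ.2.le
        have h7 : (0 : ℝ) ≤ κ := Nat.cast_nonneg _
        rw [abs_mul, abs_of_nonneg (by linarith)]
        exact mul_le_mul (by linarith) h5 (abs_nonneg _) hm0
      refine (sum_le_sum h4).trans ?_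
      rw [sum_const, Nat.card_Ico, nsmul_eq_mul]
      have h8 : ((m - 1 : ℕ) : ℝ) ≤ m := by exact_mod_cast Nat.sub_le m 1
      calc ((m - 1 : ℕ) : ℝ) * (m * E2) ≤ m * (m * E2) := mul_le_mul_of_nonneg_right h8 (by positivity)
        _ = _ := by ring
  have e5 : ∑ n ∈ Icc 1 N, Wd d m n ^ 2 - N * (m * (L - 1) + 2 * ∑ κ ∈ Ico 1 m, ((m : ℝ) - κ) * SS (κ * d)) =
      (∑ n ∈ Icc 1 N, Wd d m n ^ 2 - ∑ i ∈ Icc 1 m, ∑ j ∈ Icc 1 m, LL N (((i - j) + (j - i)) * d)) +
      (∑ i ∈ Icc 1 m, ∑ j ∈ Icc 1 m, LL N (((i - j) + (j - i)) * d) -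
      N * (m * (L - 1) + 2 * ∑ κ ∈ Ico 1 m, ((m : ℝ) - κ) * SS (κ * d))) := by ring
  rw [e5]
  refine (abs_add_le _ _).trans ?_
  linarith

/-- the first moment over the integers coprime to `d` -/
theorem first_moment (N d m : ℕ) (L : ℝ) (hL : L = Real.log N) (hL4 : 4 ≤ L) (hd : 1 ≤ d) (hmd : m * d ≤ N)
    (E1 : ℝ) (h1 : |ps N - N| ≤ E1) :
    |∑ n ∈ (Icc 1 N).filter (fun n : ℕ => n.Coprime d), Wd d m n - m * N| ≤
      m * ((m : ℝ) * d * (2 * L)) + m * E1 + m * ((2 * L) * ((2 * (2 * L) + 1) * (2 * L))) := by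
  have hL0 : 0 < L := by linarith
  have hm0 : (0 : ℝ) ≤ m := Nat.cast_nonneg _
  have hN1 : 1 ≤ N := by
    by_contra hcon
    have : N = 0 := by omega
    rw [hL, this] at hL4
    norm_num at hL4
  have hN0 : (0 : ℝ) < N := by exact_mod_cast hN1
  rcases Nat.eq_zero_or_pos m with rfl | hm
  · unfold Wd
    simp
  have hdN : d ≤ N := le_trans (Nat.le_mul_of_pos_left d hm) hmd
  have hlogd : Real.log d ≤ L := by
    rw [hL]
    exact Real.log_le_log (by exact_mod_cast hd) (by exact_mod_cast hdN)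
  have hlog2 : Real.log ((2 * N : ℕ) : ℝ) ≤ 2 * L := by
    push_cast
    rw [Real.log_mul (by norm_num) hN0.ne', ← hL]
    have := Real.log_le_sub_one_of_pos (show (0 : ℝ) < 2 by norm_num)
    linarith
  have hlog20 : 0 ≤ Real.log ((2 * N : ℕ) : ℝ) := Real.log_natCast_nonneg _
  have hld0 : 0 ≤ Real.log d := Real.log_natCast_nonneg _
  -- the noncoprime part
  have nc : ∀ j ∈ Icc 1 m, ∑ n ∈ (Icc 1 N).filter (fun n : ℕ => ¬ n.Coprime d), ArithmeticFunction.vonMangoldt (n + j * d) ≤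
      (2 * L) * ((2 * (2 * L) + 1) * (2 * L)) := by
    intro j hj
    rw [mem_Icc] at hj
    have hjd : j * d ≤ m * d := Nat.mul_le_mul_right d hj.2
    have h2 := noncop_sum d (2 * N) hd (by omega)
    have h3 : ∑ n ∈ (Icc 1 N).filter (fun n : ℕ => ¬ n.Coprime d), ArithmeticFunction.vonMangoldt (n + j * d) ≤
        ∑ r ∈ (Icc 1 (2 * N)).filter (fun r : ℕ => ¬ r.Coprime d), ArithmeticFunction.vonMangoldt r := by
      have h4 : ∑ n ∈ (Icc 1 N).filter (fun n : ℕ => ¬ n.Coprime d), ArithmeticFunction.vonMangoldt (n + j * d) =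
          ∑ r ∈ ((Icc 1 N).filter (fun n : ℕ => ¬ n.Coprime d)).image (fun n => n + j * d), ArithmeticFunction.vonMangoldt r := by
        rw [sum_image]
        intro a _ b _ hab
        have : a + j * d = b + j * d := hab
        omega
      rw [h4]
      apply sum_le_sum_of_subset_of_nonneg
      · intro r hr
        rw [mem_image] at hr
        obtain ⟨n, hn, rfl⟩ := hr
        rw [mem_filter, mem_Icc] at hn ⊢
        refine ⟨by omega, fun hc => hn.2 ?_⟩
        exact (Nat.coprime_add_mul_right_left n d j).1 hc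
      · intro _ _ _
        exact ArithmeticFunction.vonMangoldt_nonneg
    refine h3.trans (h2.trans ?_)
    gcongr
  have e1 : ∑ n ∈ (Icc 1 N).filter (fun n : ℕ => n.Coprime d), Wd d m n =
      ∑ j ∈ Icc 1 m, (∑ n ∈ Icc 1 N, ArithmeticFunction.vonMangoldt (n + j * d) -
        ∑ n ∈ (Icc 1 N).filter (fun n : ℕ => ¬ n.Coprime d), ArithmeticFunction.vonMangoldt (n + j * d)) := by
    unfold Wd
    rw [sum_comm]
    refine sum_congr rfl fun j _ => ?_
    rw [← sum_filter_add_sum_filter_not (Icc 1 N) (fun n : ℕ => n.Coprime d) (fun n => ArithmeticFunction.vonMangoldt (n + j * d))]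
    ring
  have e2 : (m : ℝ) * N = ∑ _j ∈ Icc 1 m, (N : ℝ) := by
    rw [sum_const, Nat.card_Icc, nsmul_eq_mul]
    simp
  rw [e1, e2, ← sum_sub_distrib]
  refine (abs_sum_le_sum_abs _ _).trans ?_
  have h5 : ∀ j ∈ Icc 1 m, |∑ n ∈ Icc 1 N, ArithmeticFunction.vonMangoldt (n + j * d) -
        ∑ n ∈ (Icc 1 N).filter (fun n : ℕ => ¬ n.Coprime d), ArithmeticFunction.vonMangoldt (n + j * d) - N| ≤
      (m : ℝ) * d * (2 * L) + E1 + (2 * L) * ((2 * (2 * L) + 1) * (2 * L)) := by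
    intro j hj
    have h6 := nc j hj
    rw [mem_Icc] at hj
    have hjd : j * d ≤ m * d := Nat.mul_le_mul_right d hj.2
    have h7 := shift1 N (j * d) (fun n => ArithmeticFunction.vonMangoldt n) (2 * L) (by omega)
      (fun n => ArithmeticFunction.vonMangoldt_nonneg) (fun n hn1 hn2 => lam_le2 N n L hL hL4 hn1 (by omega))
    have h8 : ((j * d : ℕ) : ℝ) * (2 * L) ≤ (m : ℝ) * d * (2 * L) := by
      apply mul_le_mul_of_nonneg_right _ (by positivity)
      exact_mod_cast hjd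
    have h9 : 0 ≤ ∑ n ∈ (Icc 1 N).filter (fun n : ℕ => ¬ n.Coprime d), ArithmeticFunction.vonMangoldt (n + j * d) :=
      sum_nonneg fun n _ => ArithmeticFunction.vonMangoldt_nonneg
    have h10 : ∑ n ∈ Icc 1 N, ArithmeticFunction.vonMangoldt n = ps N := rfl
    rw [h10] at h7
    rw [abs_le] at h7 h1 ⊢
    constructor <;> linarith
  refine (sum_le_sum h5).trans (le_of_eq ?_)
  rw [sum_const, Nat.card_Icc, nsmul_eq_mul]
  simp
  ring

end Pool.Agent.Run7.h364.MK.VR
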