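import Pool.Agent.Run7.h364.MK.Var2
import Pool.Agent.Run7.h794.MK.Tra

/-!
# The variance of the primes in windows of progressions whose differences are members of a flat family
-/

set_option autoImplicit false

namespace Pool.Agent.Run7.h364.MK.VR

open Finset
open Pool.Agent.H373R2.T7 (ev_L' ev_log')
open Pool.Agent.N384.MQ (Flat dis dis_nonneg)
open Pool.Agent.Run7.h794.MK
open Pool.Agent.Run7.h364.MK

/-- expanding the square -/
lemma var_expand (N d m : ℕ) : ∑ n ∈ Icc 1 N, (Wd d m n - mean d m n) ^ 2 =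
    ∑ n ∈ Icc 1 N, Wd d m n ^ 2 -
    2 * ((m : ℝ) * (d / Nat.totient d)) * ∑ n ∈ (Icc 1 N).filter (fun n : ℕ => n.Coprime d), Wd d m n +
    ((m : ℝ) * (d / Nat.totient d)) ^ 2 * (((Icc 1 N).filter (fun n : ℕ => n.Coprime d)).card : ℝ) := by
  rw [card_filter, sum_filter, mul_sum]
  push_cast
  rw [mul_sum, ← sum_sub_distrib, ← sum_add_distrib]
  refine sum_congr rfl fun n _ => ?_
  unfold mean
  split_ifs
  · ring
  · ring

set_option maxHeartbeats 1000000 in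
/-- **the variance from the correlations** -/
theorem var_formula (A U : ℕ) : ∃ N₀ : ℕ, ∀ N : ℕ, N₀ ≤ N → ∀ d m : ℕ, 1 ≤ d →
    (d : ℝ) * Real.log N ^ (3 * A + U + 8) ≤ N → (m : ℝ) ≤ Real.log N ^ A →
    (∀ κ ∈ Ico 1 m, |LL N (κ * d) - N * SS (κ * d)| ≤ N / Real.log N ^ (2 * A + U + 6)) →
    |∑ n ∈ Icc 1 N, (Wd d m n - mean d m n) ^ 2 - mainV N d m| ≤ N / Real.log N ^ U := by
  obtain ⟨n1, h1⟩ := lamsq (2 * A + U + 6)
  obtain ⟨Cp, hCp, h2⟩ := ps_err (2 * A + U + 7)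
  obtain ⟨n3, h3⟩ := ev_L' (Cp + 60)
  obtain ⟨n4, h4⟩ := ev_log' (2 * A + U + 5) 120
  refine ⟨n1 + n3 + n4 + 2, fun N hN d m hd hdN hm hκ => ?_⟩
  obtain ⟨L, hL⟩ : ∃ L, L = Real.log (N : ℝ) := ⟨_, rfl⟩
  have hLC := h3 N (by omega)
  rw [← hL] at hLC hdN hm hκ
  have hL60 : 60 ≤ L := by linarith
  have hL0 : 0 < L := by linarith
  have hL1 : 1 ≤ L := by linarith
  have hN0 : (0 : ℝ) < N := by exact_mod_cast (by omega : 0 < N)
  have hN1 : (1 : ℝ) ≤ N := by exact_mod_cast (by omega : 1 ≤ N)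
  have hm0 : (0 : ℝ) ≤ m := Nat.cast_nonneg _
  have hd0 : (0 : ℝ) < d := by exact_mod_cast hd
  have hdN' : (d : ℝ) ≤ N / L ^ (3 * A + U + 8) := by
    rw [le_div_iff₀ (by positivity)]
    exact hdN
  have hmd : m * d ≤ N := by
    have : (m : ℝ) * d ≤ N := by
      calc (m : ℝ) * d ≤ L ^ A * d := mul_le_mul_of_nonneg_right hm hd0.le
        _ = d * L ^ A := mul_comm _ _
        _ ≤ d * L ^ (3 * A + U + 8) := by
          apply mul_le_mul_of_nonneg_left _ hd0.le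
          exact pow_le_pow_right₀ hL1 (by omega)
        _ ≤ N := hdN
    exact_mod_cast this
  have hdNr : (d : ℝ) ≤ N := hdN'.trans (div_le_self hN0.le (one_le_pow₀ hL1))
  have hlogd : Real.log d ≤ L := by
    rw [hL]
    exact Real.log_le_log hd0 hdNr
  obtain ⟨μ, hμ⟩ : ∃ μ : ℝ, μ = (m : ℝ) * (d / Nat.totient d) := ⟨_, rfl⟩
  have hdp := dphi_le d hd
  have hphi : (0 : ℝ) < Nat.totient d := by exact_mod_cast Nat.totient_pos.2 hd
  have hdp0 : 0 ≤ (d : ℝ) / Nat.totient d := by positivity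
  have hμ0 : 0 ≤ μ := by rw [hμ]; positivity
  have hμ1 : μ ≤ 3 * L ^ (A + 1) := by
    rw [hμ, pow_succ]
    calc (m : ℝ) * (d / Nat.totient d) ≤ L ^ A * (3 * L) := mul_le_mul hm (by linarith) hdp0 (by positivity)
      _ = _ := by ring
  have a1 := h1 N (by omega)
  have a2 := h2 N (by omega)
  rw [← hL] at a1 a2
  have a2' : |ps N - N| ≤ N / L ^ (2 * A + U + 6) := by
    refine a2.trans ?_
    have : L ^ (2 * A + U + 7) = L ^ (2 * A + U + 6) * L := pow_succ _ _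
    rw [this]
    calc Cp * (N / (L ^ (2 * A + U + 6) * L)) = (Cp / L) * (N / L ^ (2 * A + U + 6)) := by field_simp
      _ ≤ 1 * (N / L ^ (2 * A + U + 6)) := by
        apply mul_le_mul_of_nonneg_right _ (by positivity)
        rw [div_le_one hL0]
        linarith
      _ = _ := one_mul _
  have s2 := second_moment N d m L hL (by linarith) hmd _ _ (by positivity) a1 hκ
  have s1 := first_moment N d m L hL (by linarith) hd hmd _ a2'
  have s0 := cop_count d N hd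
  rw [var_expand, ← hμ]
  obtain ⟨Z, hZ⟩ : ∃ Z : ℝ, Z = N / L ^ (U + 5) := ⟨_, rfl⟩
  have hZ0 : 0 ≤ Z := by rw [hZ]; positivity
  -- powers
  have hm2 : (m : ℝ) ^ 2 ≤ L ^ (2 * A) := by
    calc (m : ℝ) ^ 2 ≤ (L ^ A) ^ 2 := pow_le_pow_left₀ hm0 hm 2
      _ = L ^ (2 * A) := by rw [← pow_mul]; congr 1; ring
  have z1 : N / L ^ (2 * A + U + 6) * L ^ (2 * A + 1) = Z := by
    rw [hZ]
    have : L ^ (2 * A + U + 6) = L ^ (U + 5) * L ^ (2 * A + 1) := by rw [← pow_add]; congr 1; ring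
    rw [this]
    field_simp
  have z2 : N / L ^ (3 * A + U + 8) * L ^ (3 * A + 3) = Z := by
    rw [hZ]
    have : L ^ (3 * A + U + 8) = L ^ (U + 5) * L ^ (3 * A + 3) := by rw [← pow_add]; congr 1; ring
    rw [this]
    field_simp
  have w1 : (m : ℝ) ^ 2 * ((m : ℝ) * d * (4 * L ^ 2)) ≤ 4 * Z := by
    calc (m : ℝ) ^ 2 * ((m : ℝ) * d * (4 * L ^ 2)) ≤ L ^ (2 * A) * (L ^ A * (N / L ^ (3 * A + U + 8)) * (4 * L ^ 2)) := by gcongr
      _ = 4 * (N / L ^ (3 * A + U + 8) * L ^ (3 * A + 2)) := by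
        rw [show 3 * A + 2 = 2 * A + A + 2 by ring, pow_add, pow_add]; ring
      _ ≤ 4 * (N / L ^ (3 * A + U + 8) * L ^ (3 * A + 3)) := by
        gcongr
        omega
      _ = 4 * Z := by rw [z2]
  have w2 : (m : ℝ) * (N / L ^ (2 * A + U + 6)) ≤ Z := by
    calc (m : ℝ) * (N / L ^ (2 * A + U + 6)) ≤ L ^ A * (N / L ^ (2 * A + U + 6)) := by gcongr
      _ ≤ L ^ (2 * A + 1) * (N / L ^ (2 * A + U + 6)) := by
        gcongr
        omega
      _ = Z := by rw [mul_comm, z1]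
  have w3 : 2 * ((m : ℝ) ^ 2 * (N / L ^ (2 * A + U + 6))) ≤ 2 * Z := by
    calc 2 * ((m : ℝ) ^ 2 * (N / L ^ (2 * A + U + 6))) ≤ 2 * (L ^ (2 * A) * (N / L ^ (2 * A + U + 6))) := by gcongr
      _ ≤ 2 * (L ^ (2 * A + 1) * (N / L ^ (2 * A + U + 6))) := by
        gcongr
        omega
      _ = 2 * Z := by rw [mul_comm (L ^ (2 * A + 1)), z1]
  have w4 : 2 * μ * (m * ((m : ℝ) * d * (2 * L))) ≤ 12 * Z := by
    calc 2 * μ * (m * ((m : ℝ) * d * (2 * L))) = (4 * μ * L) * ((m : ℝ) ^ 2 * d) := by ring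
      _ ≤ (4 * (3 * L ^ (A + 1)) * L) * (L ^ (2 * A) * (N / L ^ (3 * A + U + 8))) := by gcongr
      _ = 12 * (N / L ^ (3 * A + U + 8) * L ^ (3 * A + 2)) := by
        rw [show 3 * A + 2 = (A + 1) + 1 + 2 * A by ring, pow_add L (A + 1 + 1), pow_add L (A + 1)]; ring
      _ ≤ 12 * (N / L ^ (3 * A + U + 8) * L ^ (3 * A + 3)) := by
        gcongr
        omega
      _ = 12 * Z := by rw [z2]
  have w5 : 2 * μ * (m * (N / L ^ (2 * A + U + 6))) ≤ 6 * Z := by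
    calc 2 * μ * (m * (N / L ^ (2 * A + U + 6))) ≤ 2 * (3 * L ^ (A + 1)) * (L ^ A * (N / L ^ (2 * A + U + 6))) := by gcongr
      _ = 6 * (N / L ^ (2 * A + U + 6) * L ^ (2 * A + 1)) := by
        rw [show 2 * A + 1 = (A + 1) + A by ring, pow_add L (A + 1)]; ring
      _ = 6 * Z := by rw [z1]
  have w6 : 2 * μ * (m * ((2 * L) * ((2 * (2 * L) + 1) * (2 * L)))) ≤ Z := by
    have hpol : 120 * L ^ (2 * A + U + 5) * L ^ (2 * A + U + 5) ≤ N := by
      have h5 := h4 N (by omega)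
      rw [← hL] at h5
      have hss := Real.mul_self_sqrt hN0.le
      have h6 : L ^ (2 * A + U + 5) ≤ √(N : ℝ) := by
        refine le_trans ?_ h5
        have : 0 ≤ L ^ (2 * A + U + 5) := by positivity
        linarith
      calc 120 * L ^ (2 * A + U + 5) * L ^ (2 * A + U + 5) ≤ √(N : ℝ) * √(N : ℝ) :=
            mul_le_mul h5 h6 (by positivity) (Real.sqrt_nonneg _)
        _ = N := hss
    calc 2 * μ * (m * ((2 * L) * ((2 * (2 * L) + 1) * (2 * L)))) ≤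
          2 * (3 * L ^ (A + 1)) * (L ^ A * ((2 * L) * ((5 * L) * (2 * L)))) := by
            gcongr
            linarith
      _ = 120 * L ^ (2 * A + 4) := by
        rw [show 2 * A + 4 = (A + 1) + A + 3 by ring, pow_add L (A + 1 + A), pow_add L (A + 1)]; ring
      _ ≤ Z := by
        rw [hZ, le_div_iff₀ (by positivity)]
        calc 120 * L ^ (2 * A + 4) * L ^ (U + 5) ≤ 120 * L ^ (2 * A + U + 5) * L ^ (2 * A + U + 5) := by
              apply mul_le_mul _ (pow_le_pow_right₀ hL1 (by omega)) (by positivity) (by positivity)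
              exact mul_le_mul_of_nonneg_left (pow_le_pow_right₀ hL1 (by omega)) (by norm_num)
          _ ≤ N := hpol
  have w7 : μ ^ 2 * (d : ℝ) ≤ 9 * Z := by
    calc μ ^ 2 * (d : ℝ) ≤ (3 * L ^ (A + 1)) ^ 2 * (N / L ^ (3 * A + U + 8)) := by gcongr
      _ = 9 * (N / L ^ (3 * A + U + 8) * L ^ (2 * A + 2)) := by
        rw [show 2 * A + 2 = (A + 1) + (A + 1) by ring, pow_add L (A + 1)]; ring
      _ ≤ 9 * (N / L ^ (3 * A + U + 8) * L ^ (3 * A + 3)) := by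
        apply mul_le_mul_of_nonneg_left _ (by norm_num)
        exact mul_le_mul_of_nonneg_left (pow_le_pow_right₀ hL1 (by omega)) (by positivity)
      _ = 9 * Z := by rw [z2]
  -- the main term
  obtain ⟨S2, hS2⟩ : ∃ S2, S2 = ∑ n ∈ Icc 1 N, Wd d m n ^ 2 := ⟨_, rfl⟩
  obtain ⟨S1, hS1⟩ : ∃ S1, S1 = ∑ n ∈ (Icc 1 N).filter (fun n : ℕ => n.Coprime d), Wd d m n := ⟨_, rfl⟩
  obtain ⟨S0, hS0⟩ : ∃ S0 : ℝ, S0 = (((Icc 1 N).filter (fun n : ℕ => n.Coprime d)).card : ℝ) := ⟨_, rfl⟩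
  obtain ⟨Sg, hSg⟩ : ∃ Sg, Sg = ∑ κ ∈ Ico 1 m, ((m : ℝ) - κ) * SS (κ * d) := ⟨_, rfl⟩
  rw [← hS2, ← hSg] at s2
  rw [← hS1] at s1
  rw [← hS0] at s0
  rw [← hS2, ← hS1, ← hS0]
  have hmain : mainV N d m = N * (m * (L - 1) + 2 * Sg) - 2 * μ * (m * N) + μ ^ 2 * (N * ((Nat.totient d : ℝ) / d)) := by
    unfold mainV
    rw [← hL, ← hSg, hμ]
    field_simp
    ring
  rw [hmain]
  have e : S2 - 2 * μ * S1 + μ ^ 2 * S0 - (N * (m * (L - 1) + 2 * Sg) - 2 * μ * (m * N) + μ ^ 2 * (N * ((Nat.totient d : ℝ) / d))) =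
      (S2 - N * (m * (L - 1) + 2 * Sg)) + -(2 * μ * (S1 - m * N)) + μ ^ 2 * (S0 - N * ((Nat.totient d : ℝ) / d)) := by ring
  rw [e]
  have f1 := abs_add_le ((S2 - N * (m * (L - 1) + 2 * Sg)) + -(2 * μ * (S1 - m * N))) (μ ^ 2 * (S0 - N * ((Nat.totient d : ℝ) / d)))
  have f2 := abs_add_le (S2 - N * (m * (L - 1) + 2 * Sg)) (-(2 * μ * (S1 - m * N)))
  rw [abs_neg, abs_mul, abs_of_nonneg (by positivity : 0 ≤ 2 * μ)] at f2
  rw [abs_mul (μ ^ 2), abs_of_nonneg (by positivity : 0 ≤ μ ^ 2)] at f1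
  have g1 : 2 * μ * |S1 - m * N| ≤ 2 * μ * (m * ((m : ℝ) * d * (2 * L)) + m * (N / L ^ (2 * A + U + 6)) + m * ((2 * L) * ((2 * (2 * L) + 1) * (2 * L)))) :=
    mul_le_mul_of_nonneg_left s1 (by positivity)
  have g2 : μ ^ 2 * |S0 - N * ((Nat.totient d : ℝ) / d)| ≤ μ ^ 2 * d := mul_le_mul_of_nonneg_left s0 (by positivity)
  rw [mul_add, mul_add] at g1
  have hfin : 35 * Z ≤ N / L ^ U := by
    rw [hZ]
    have : L ^ (U + 5) = L ^ U * L ^ 5 := by rw [pow_add]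
    rw [this]
    calc 35 * (N / (L ^ U * L ^ 5)) = (35 / L ^ 5) * (N / L ^ U) := by field_simp
      _ ≤ 1 * (N / L ^ U) := by
        apply mul_le_mul_of_nonneg_right _ (by positivity)
        rw [div_le_one (by positivity)]
        calc (35 : ℝ) ≤ L := by linarith
          _ = L ^ 1 := (pow_one _).symm
          _ ≤ L ^ 5 := pow_le_pow_right₀ hL1 (by norm_num)
      _ = _ := one_mul _
  rw [← hL]
  linarith

end Pool.Agent.Run7.h364.MK.VR
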